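import Pool.Agent.Helper22_LTG.Gen
import Pool.Agent.ANR.Stmts
import Pool.Agent.ANR.Stmts2

/-!
# Cutting nodes and releasing clusters in the language of Moreau forms: any graph

`cE G κ A` is the Dirichlet form of the nodes `A`, `LB` / `UB` are the lower and upper bounds by the
Moreau form. All constants `c` are the weighted mean `wm a f` of `f`: it minimizes `∑ a (f - c)²`, so
the same `c` is good for every `h`.
-/

set_option autoImplicit false
set_option linter.unusedSectionVars false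

open scoped BigOperators
open Finset

noncomputable section

namespace Pool.Agent.CTC

open Pool.Agent.LTG Pool.Agent.ANR

section mean

variable {X : Type*} [Fintype X]

/-- the weighted mean of `f` -/
def wm (a f : X → ℝ) : ℝ := (∑ x, a x * f x) / ∑ x, a x

/-- (WME) the weighted mean minimizes -/
theorem wm_min (a f : X → ℝ) (ha : ∀ x, 0 ≤ a x) (c : ℝ) :
    ∑ x, a x * (f x - wm a f) ^ 2 ≤ ∑ x, a x * (f x - c) ^ 2 := by
  set m := wm a f with hm
  have h0 : 0 ≤ ∑ x, a x := Finset.sum_nonneg fun x _ => ha x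
  have h1 : ∑ x, a x * (f x - c) ^ 2 =
      ∑ x, a x * (f x - m) ^ 2 + 2 * (m - c) * (∑ x, a x * f x - m * ∑ x, a x) +
        (m - c) ^ 2 * ∑ x, a x := by
    have e : ∀ x, a x * (f x - c) ^ 2 = a x * (f x - m) ^ 2 + 2 * (m - c) * (a x * f x) -
        2 * (m - c) * m * a x + (m - c) ^ 2 * a x := fun x => by ring
    simp only [e, Finset.sum_add_distrib, Finset.sum_sub_distrib, ← Finset.mul_sum]
    ring
  have h2 : ∑ x, a x * f x - m * ∑ x, a x = 0 := by
    rcases eq_or_lt_of_le h0 with h | h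
    · have hz : ∀ x, a x = 0 := fun x =>
        (Finset.sum_eq_zero_iff_of_nonneg fun x _ => ha x).mp h.symm x (Finset.mem_univ x)
      simp [hz]
    · rw [hm]
      unfold wm
      rw [div_mul_cancel₀ _ h.ne', sub_self]
  rw [h1, h2]
  have := mul_nonneg (sq_nonneg (m - c)) h0
  linarith

/-- the weighted mean only sees the support of the weight -/
theorem wm_congr (a f g : X → ℝ) (h : ∀ x, a x ≠ 0 → f x = g x) : wm a f = wm a g := by
  unfold wm
  congr 1
  refine Finset.sum_congr rfl fun x _ => ?_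
  by_cases hx : a x = 0
  · rw [hx, zero_mul, zero_mul]
  · rw [h x hx]

end mean

variable {X : Type} [Fintype X] [DecidableEq X] {ep : Type*} [Fintype ep] (s t : ep → X)

/-- the form only sees the nodes -/
theorem cE_congr (G : Matrix X X ℂ) (κ : X → ℝ) (A : Finset X) {f g : X → ℝ} (c : ℝ)
    (h : ∀ x ∈ A, f x - g x = c) : cE G κ A f = cE G κ A g := by
  unfold cE
  congr 1
  refine Finset.sum_congr rfl fun x hx => Finset.sum_congr rfl fun y hy => ?_
  have : f x - f y = g x - g y := by linarith [h x hx, h y hy]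
  rw [this]

theorem cE_mono (G : Matrix X X ℂ) (κ : X → ℝ) {B A : Finset X} (hBA : B ⊆ A)
    (hκ : ∀ x ∈ A, 0 ≤ κ x) (f : X → ℝ) : cE G κ B f ≤ cE G κ A f := by
  unfold cE
  refine mul_le_mul_of_nonneg_left ?_ (by norm_num)
  have hp : ∀ x ∈ A, ∀ y ∈ A, 0 ≤ κ x * κ y * ‖G x y‖ ^ 2 * (f x - f y) ^ 2 := fun x hx y hy =>
    mul_nonneg (mul_nonneg (mul_nonneg (hκ x hx) (hκ y hy)) (sq_nonneg _)) (sq_nonneg _)
  calc ∑ x ∈ B, ∑ y ∈ B, κ x * κ y * ‖G x y‖ ^ 2 * (f x - f y) ^ 2
      ≤ ∑ x ∈ B, ∑ y ∈ A, κ x * κ y * ‖G x y‖ ^ 2 * (f x - f y) ^ 2 :=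
        Finset.sum_le_sum fun x hx => Finset.sum_le_sum_of_subset_of_nonneg hBA
          fun y hy _ => hp x (hBA hx) y hy
    _ ≤ _ := Finset.sum_le_sum_of_subset_of_nonneg hBA fun x hx _ =>
        Finset.sum_nonneg fun y hy => hp x hx y hy

theorem cE_nonneg (G : Matrix X X ℂ) (κ : X → ℝ) {A : Finset X} (hκ : ∀ x ∈ A, 0 ≤ κ x)
    (f : X → ℝ) : 0 ≤ cE G κ A f := by
  unfold cE
  refine mul_nonneg (by norm_num) (Finset.sum_nonneg fun x hx => Finset.sum_nonneg fun y hy => ?_)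
  exact mul_nonneg (mul_nonneg (mul_nonneg (hκ x hx) (hκ y hy)) (sq_nonneg _)) (sq_nonneg _)

/-- the weight of the bonds which are cut: `κ x ∑_(b ∈ Q) κ b K_xb` on `A \ Q` -/
def cw (G : Matrix X X ℂ) (κ : X → ℝ) (A Q : Finset X) (x : X) : ℝ :=
  if x ∈ A \ Q then κ x * fl G κ Q x else 0

theorem cw_nonneg (G : Matrix X X ℂ) (κ : X → ℝ) (A Q : Finset X) (hQA : Q ⊆ A)
    (hκ : ∀ x ∈ A, 0 ≤ κ x) (x : X) : 0 ≤ cw G κ A Q x := by
  unfold cw
  split
  · rename_i h
    refine mul_nonneg (hκ x (Finset.mem_sdiff.1 h).1) ?_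
    unfold fl
    exact Finset.sum_nonneg fun b hb => mul_nonneg (hκ b (hQA hb)) (sq_nonneg _)
  · exact le_rfl

/-- the cut in one formula -/
theorem cut_eq (hcut : CutStmt) (G : Matrix X X ℂ) (κ : X → ℝ) (A Q : Finset X) (hQA : Q ⊆ A)
    (hs : ∀ x y, G x y = G y x) (f : X → ℝ) (c : ℝ) :
    cE G κ A (fun x => if x ∈ Q then c else f x) =
      cE G κ (A \ Q) f + ∑ x, cw G κ A Q x * (f x - c) ^ 2 := by
  have h := hcut X G κ (A \ Q) Q (fun x => if x ∈ Q then c else f x) c hs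
    Finset.sdiff_disjoint (fun b hb => if_pos hb)
  rw [Finset.sdiff_union_of_subset hQA] at h
  rw [h]
  have e1 : cE G κ (A \ Q) (fun x => if x ∈ Q then c else f x) = cE G κ (A \ Q) f :=
    cE_congr G κ (A \ Q) 0 fun x hx => by
      show (if x ∈ Q then c else f x) - f x = 0
      rw [if_neg (Finset.mem_sdiff.1 hx).2, sub_self]
  rw [e1]
  congr 1
  rw [← Finset.sum_subset (Finset.subset_univ (A \ Q))]
  · refine Finset.sum_congr rfl fun x hx => ?_
    unfold cw
    rw [if_pos hx, if_neg (Finset.mem_sdiff.1 hx).2]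
  · intro x _ hx
    unfold cw
    rw [if_neg hx, zero_mul]

/-- (CTC, lower) THE CUT. The nodes `Q` leave the network. `al'`, `be'` is a bound for the weighted
variance of `f` with the weights of the cut bonds. -/
theorem ctc_lb (hcut : CutStmt) {G : Matrix X X ℂ} {κ : X → ℝ} {A Q : Finset X} (hQA : Q ⊆ A)
    (hs : ∀ x y, G x y = G y x) {al al' : X → ℝ} {be be' : ep → ℝ} (hal : ∀ x, 0 ≤ al x)
    (hLB : LB s t (cE G κ A) al be)
    (hab : ∀ f h, ∑ x, cw G κ A Q x * (f x - wm (cw G κ A Q) f) ^ 2 ≤ mor s t al' be' f h) :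
    LB s t (cE G κ (A \ Q)) (fun x => (if x ∈ Q then 0 else al x) - al' x)
      (fun e => be e - be' e) := by
  intro f
  set c := wm (cw G κ A Q) f with hc
  obtain ⟨h, hh⟩ := hLB (fun x => if x ∈ Q then c else f x)
  refine ⟨h, ?_⟩
  rw [cut_eq hcut G κ A Q hQA hs f c] at hh
  rw [mor_sub]
  have h1 := hab f h
  rw [← hc] at h1
  have h2 : mor s t (fun x => if x ∈ Q then 0 else al x) be f h ≤
      mor s t al be (fun x => if x ∈ Q then c else f x) h := by
    unfold mor
    refine add_le_add (Finset.sum_le_sum fun x _ => ?_) le_rfl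
    by_cases hx : x ∈ Q
    · simp only [if_pos hx, zero_mul]
      exact mul_nonneg (hal x) (sq_nonneg _)
    · simp only [if_neg hx]
      exact le_rfl
  linarith

/-- (CTC, upper) the upper bound costs nothing -/
theorem ctc_ub {G : Matrix X X ℂ} {κ : X → ℝ} {A Q : Finset X}
    (hκ : ∀ x ∈ A, 0 ≤ κ x) {al : X → ℝ} {be : ep → ℝ}
    (hUB : UB s t (cE G κ A) al be) :
    UB s t (cE G κ (A \ Q)) (fun x => if x ∈ Q then 0 else al x) be := by
  intro f h
  set f' : X → ℝ := fun x => if x ∈ Q then h x else f x with hf'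
  have e1 : cE G κ (A \ Q) f = cE G κ (A \ Q) f' :=
    cE_congr G κ (A \ Q) 0 fun x hx => by
      rw [hf']
      dsimp only
      rw [if_neg (Finset.mem_sdiff.1 hx).2, sub_self]
  rw [e1]
  refine (cE_mono G κ Finset.sdiff_subset hκ f').trans ((hUB f' h).trans (le_of_eq ?_))
  unfold mor
  congr 1
  refine Finset.sum_congr rfl fun x _ => ?_
  by_cases hx : x ∈ Q
  · simp only [hf', if_pos hx, sub_self, zero_mul]
    simp
  · simp only [hf', if_neg hx]

/-- the weights of the nodes outside of the network may be put equal to zero (upper bound) -/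
theorem ub_off {G : Matrix X X ℂ} {κ : X → ℝ} {A : Finset X} {al : X → ℝ} {be : ep → ℝ}
    (hUB : UB s t (cE G κ A) al be) :
    UB s t (cE G κ A) (fun x => if x ∈ A then al x else 0) be := by
  intro f h
  set f' : X → ℝ := fun x => if x ∈ A then f x else h x with hf'
  have e1 : cE G κ A f = cE G κ A f' :=
    cE_congr G κ A 0 fun x hx => by
      rw [hf']
      dsimp only
      rw [if_pos hx, sub_self]
  rw [e1]
  refine (hUB f' h).trans (le_of_eq ?_)
  unfold mor
  congr 1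
  refine Finset.sum_congr rfl fun x _ => ?_
  by_cases hx : x ∈ A
  · simp only [hf', if_pos hx]
  · simp only [hf', if_neg hx, sub_self, zero_mul]
    simp

/-- (RLB) THE RELEASE as an error in the language of Moreau forms: `hB` is the local form, `hab` the
absorber, `htl` the tail. Then `ler`, `uer` give the new bounds. -/
theorem rel_err (hfrx : FrxStmt) {G G' : Matrix X X ℂ} {κ : X → ℝ} {A B : Finset X}
    (m : X → ℝ) {ε : ℝ} (hs : ∀ x y, G x y = G y x) (hs' : ∀ x y, G' x y = G' y x)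
    (hκ : ∀ x ∈ A, 0 ≤ κ x) (hBA : B ⊆ A) (hε : 0 < ε) (hε1 : ε ≤ 1)
    (hm : ∀ x ∈ B, ∑ y ∈ B, κ y * ‖G x y - G' x y‖ ^ 2 ≤ m x)
    {al₁ al₂ al₃ : X → ℝ} {be₁ be₂ be₃ : ep → ℝ}
    (hB : ∀ f h, cE G κ B f ≤ mor s t al₁ be₁ f h)
    (hab : ∀ f h, ∑ x, (if x ∈ B then κ x * m x else 0) *
      (f x - wm (fun x => if x ∈ B then κ x * m x else 0) f) ^ 2 ≤ mor s t al₂ be₂ f h)
    (htl : ∀ f h, tl G G' κ A B f ≤ mor s t al₃ be₃ f h) (f h : X → ℝ) :
    |cE G' κ A f - cE G κ A f| ≤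
      mor s t (fun x => ε * al₁ x + 4 / ε * al₂ x + al₃ x)
        (fun e => ε * be₁ e + 4 / ε * be₂ e + be₃ e) f h := by
  set a : X → ℝ := fun x => if x ∈ B then κ x * m x else 0 with ha
  have h1 := hfrx X G G' κ A B m f (wm a f) ε hs hs' hκ hBA hε hε1 hm
  have e1 : ∑ x ∈ B, κ x * m x * (f x - wm a f) ^ 2 = ∑ x, a x * (f x - wm a f) ^ 2 := by
    rw [← Finset.sum_subset (Finset.subset_univ B)]
    · refine Finset.sum_congr rfl fun x hx => ?_
      rw [ha]
      dsimp only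
      rw [if_pos hx]
    · intro x _ hx
      rw [ha]
      dsimp only
      rw [if_neg hx, zero_mul]
  rw [e1] at h1
  rw [mor_add s t (fun x => ε * al₁ x + 4 / ε * al₂ x) al₃ (fun e => ε * be₁ e + 4 / ε * be₂ e)
    be₃, mor_add s t (fun x => ε * al₁ x) (fun x => 4 / ε * al₂ x) (fun e => ε * be₁ e)
    (fun e => 4 / ε * be₂ e), mor_smul, mor_smul]
  have h4 : 0 ≤ 4 / ε := by positivity
  have i1 := mul_le_mul_of_nonneg_left (hB f h) hε.le
  have i2 := mul_le_mul_of_nonneg_left (hab f h) h4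
  have i3 := htl f h
  linarith

end Pool.Agent.CTC
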