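import Pool.Agent.Helper22_LTG.Tor
import Pool.Agent.Helper17_NAS.Cube
import Pool.Agent.Helper34_CTC.Gen

/-!
# The absorber lemma on a dyadic cube of the torus
-/

set_option autoImplicit false
set_option linter.unusedSectionVars false

open scoped BigOperators
open Finset

noncomputable section

namespace Pool.Agent.CTC

open Pool.Agent.LTG

variable {d M : ℕ} [NeZero M] {L : ℕ}

/-- sums over the cube in the two languages -/
theorem sum_cu (g : (Fin d → ℕ) → ℝ) :
    ∑ u : Fin d → Fin L, g (co u) = ∑ x ∈ NAS.cu d L, g x := by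
  refine Finset.sum_bij' (fun u _ => co u)
    (fun x hx i => ⟨x i, (NAS.mem_cu.1 hx) i⟩) ?_ ?_ ?_ ?_ ?_
  · intro u _
    rw [NAS.mem_cu]
    exact fun i => (u i).2
  · intro x _
    exact Finset.mem_univ _
  · intro u _
    rfl
  · intro x _
    rfl
  · intro u _
    rfl

theorem gi_enk (F : (Fin d → ℕ) → ℝ) (k : Fin d) : NAS.gi d L k F = enk L F k := by
  unfold NAS.gi enk
  exact (sum_cu (L := L)
    (fun x => if x k + 1 < L then (F (x + Pi.single k 1) - F x) ^ 2 else 0)).symm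

/-- the energy of the cube and the energy of the bonds inside the box -/
theorem gr_bon (a : Tor d M) (hLM : L ≤ M) (h : Tor d M → ℝ) :
    NAS.gr d L (fun u => h (pt a u)) ≤ bon sT tT (cutE sT tT (Box a L) (fun _ => 1)) h := by
  unfold NAS.gr bon
  rw [Fintype.sum_prod_type]
  refine Finset.sum_le_sum fun k _ => ?_
  rw [gi_enk]
  have h1 : enk L (fun u : Fin d → ℕ => h (pt a u)) k = ∑ x, (if Box a L x then
      (if off a x k + 1 < L then (h (x + Pi.single k 1) - h x) ^ 2 else 0) else 0) := by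
    rw [sum_box a hLM]
    unfold enk
    refine Finset.sum_congr rfl fun u _ => ?_
    rw [off_pt a (co u) k (lt_of_lt_of_le (u k).2 hLM)]
    simp only [pt_add]
    rfl
  rw [h1]
  refine Finset.sum_le_sum fun x _ => ?_
  by_cases hb : Box a L x
  · rw [if_pos hb]
    by_cases hk : off a x k + 1 < L
    · rw [if_pos hk]
      have hb2 : Box a L (x + Pi.single k 1) := by
        intro i
        rw [off_add]
        by_cases hi : i = k
        · rw [if_pos hi]
          split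
          · exact hk
          · omega
        · rw [if_neg hi]; exact hb i
      have : cutE sT tT (Box a L) (fun _ => 1) (k, x) = 1 := by
        unfold cutE
        rw [if_pos ⟨hb, hb2⟩]
      rw [this, one_mul]
      exact le_rfl
    · rw [if_neg hk]
      unfold cutE
      split <;> positivity
  · rw [if_neg hb]
    unfold cutE
    split <;> positivity

/-- the factor of the absorber lemma -/
def fac (d J : ℕ) (θ T : ℝ) : ℝ := NAS.CS d * (4 ^ J * θ + ((1 / 2 : ℝ) ^ (d - 2)) ^ J * T)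

theorem fac_nonneg (d J : ℕ) {θ T : ℝ} (hθ : 0 ≤ θ) (hT : 0 ≤ T) : 0 ≤ fac d J θ T := by
  unfold fac
  have := NAS.CS_nonneg d
  positivity

/-- (BXA) THE ABSORBER LEMMA: the weighted variance of `f` in a dyadic cube. -/
theorem bxa (hd : 3 ≤ d) {k : ℕ} (J : ℕ) (hM : 2 ^ k ≤ M) (a₀ : Tor d M) {a al : Tor d M → ℝ}
    {be : Bd d M → ℝ} {θ T δ b₀ : ℝ} (ha : ∀ x, 0 ≤ a x) (hB : ∀ x, ¬ Box a₀ (2 ^ k) x → a x = 0)
    (haθ : ∀ x, a x ≤ θ) (haT : ∑ x, a x ≤ T) (hal : ∀ x, a x ≤ δ * al x) (hb₀ : 0 < b₀)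
    (hbe : ∀ e, Box a₀ (2 ^ k) (sT e) ∧ Box a₀ (2 ^ k) (tT e) → b₀ ≤ be e)
    (f h : Tor d M → ℝ) :
    ∑ x, a x * (f x - wm a f) ^ 2 ≤ morB sT tT (Box a₀ (2 ^ k)) (fun x => 2 * δ * al x)
      (fun e => 2 * fac d J θ T / b₀ * be e) f h := by
  set L : ℕ := 2 ^ k with hL
  set c : ℝ := NAS.av k (fun u => h (pt a₀ u)) 0 with hc
  have hLM : L ≤ M := hM
  have hT : 0 ≤ T := (Finset.sum_nonneg fun x _ => ha x).trans haT
  have hθ : 0 ≤ θ := (ha a₀).trans (haθ a₀)
  -- the part with `h`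
  have h1 : ∑ x, a x * (h x - c) ^ 2 ≤
      fac d J θ T * bon sT tT (cutE sT tT (Box a₀ L) (fun _ => 1)) h := by
    have e1 : ∑ x, a x * (h x - c) ^ 2 =
        ∑ x, (if Box a₀ L x then a x * (h x - c) ^ 2 else 0) := by
      refine Finset.sum_congr rfl fun x _ => ?_
      by_cases hx : Box a₀ L x
      · rw [if_pos hx]
      · rw [if_neg hx, hB x hx, zero_mul]
    have e2 : ∑ x ∈ NAS.cu d L, a (pt a₀ x) = ∑ x, a x := by
      have e3 : ∑ x, a x = ∑ x, (if Box a₀ L x then a x else 0) := by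
        refine Finset.sum_congr rfl fun x _ => ?_
        by_cases hx : Box a₀ L x
        · rw [if_pos hx]
        · rw [if_neg hx, hB x hx]
      rw [e3, sum_box a₀ hLM, sum_cu (L := L) (fun u => a (pt a₀ u))]
    rw [e1, sum_box a₀ hLM,
      sum_cu (L := L) (fun u => a (pt a₀ u) * (h (pt a₀ u) - c) ^ 2)]
    refine (NAS.sob hd k J (fun u => a (pt a₀ u)) (fun u => h (pt a₀ u)) θ T
      (fun x _ => ha _) (fun x _ => haθ _) (by rw [← hL, e2]; exact haT)).trans ?_
    exact mul_le_mul_of_nonneg_left (gr_bon a₀ hLM h) (fac_nonneg d J hθ hT)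
  -- the bonds
  have h2 : b₀ * bon sT tT (cutE sT tT (Box a₀ L) (fun _ => 1)) h ≤
      bon sT tT (cutE sT tT (Box a₀ L) be) h := by
    unfold bon
    rw [Finset.mul_sum]
    refine Finset.sum_le_sum fun e _ => ?_
    unfold cutE
    by_cases he : Box a₀ L (sT e) ∧ Box a₀ L (tT e)
    · rw [if_pos he, if_pos he, one_mul]
      exact mul_le_mul_of_nonneg_right (hbe e he) (sq_nonneg _)
    · rw [if_neg he, if_neg he]
      simp
  have h3 : ∑ x, a x * (f x - wm a f) ^ 2 ≤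
      2 * ∑ x, a x * (f x - h x) ^ 2 + 2 * ∑ x, a x * (h x - c) ^ 2 := by
    refine (wm_min a f ha c).trans ?_
    rw [Finset.mul_sum, Finset.mul_sum, ← Finset.sum_add_distrib]
    refine Finset.sum_le_sum fun x _ => ?_
    have := mul_nonneg (ha x) (sq_nonneg ((f x - h x) - (h x - c)))
    nlinarith
  have h4 : ∑ x, a x * (f x - h x) ^ 2 ≤ ∑ x, cutX (Box a₀ L) (fun x => δ * al x) x *
      (f x - h x) ^ 2 := by
    refine Finset.sum_le_sum fun x _ => ?_
    unfold cutX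
    by_cases hx : Box a₀ L x
    · rw [if_pos hx]
      exact mul_le_mul_of_nonneg_right (hal x) (sq_nonneg _)
    · rw [if_neg hx, hB x hx]
  have h5 : fac d J θ T * bon sT tT (cutE sT tT (Box a₀ L) (fun _ => 1)) h ≤
      fac d J θ T / b₀ * bon sT tT (cutE sT tT (Box a₀ L) be) h := by
    rw [div_mul_eq_mul_div, le_div_iff₀ hb₀]
    have := mul_le_mul_of_nonneg_left h2 (fac_nonneg d J hθ hT)
    linarith
  have e4 : morB sT tT (Box a₀ L) (fun x => 2 * δ * al x)
      (fun e => 2 * fac d J θ T / b₀ * be e) f h =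
      2 * ∑ x, cutX (Box a₀ L) (fun x => δ * al x) x * (f x - h x) ^ 2 +
        2 * (fac d J θ T / b₀ * bon sT tT (cutE sT tT (Box a₀ L) be) h) := by
    unfold morB mor bon cutX cutE
    rw [Finset.mul_sum, Finset.mul_sum, Finset.mul_sum]
    refine congrArg₂ _ (Finset.sum_congr rfl fun x _ => ?_) (Finset.sum_congr rfl fun e _ => ?_)
    · split <;> ring
    · split <;> ring
  rw [e4]
  linarith

/-- the local form: `B` is inside the core of the box -/
theorem loc_form {G : Matrix (Tor d M) (Tor d M) ℂ} {κ : Tor d M → ℝ} {A B : Finset (Tor d M)}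
    (a₀ : Tor d M) {R : ℕ} (hL : 0 < L) (hLM : L ≤ M) (hR : 0 < R) (hBA : B ⊆ A)
    (hκ : ∀ x ∈ A, 0 ≤ κ x) (hB : ∀ x ∈ B, Core a₀ L R x) {al : Tor d M → ℝ} {be : Bd d M → ℝ}
    {b₀ b₁ : ℝ} (hb₀ : 0 < b₀) (hb₁ : 0 ≤ b₁) (ha : ∀ x, 0 ≤ al x)
    (hbe : ∀ e, Box a₀ L (sT e) ∧ Box a₀ L (tT e) → b₀ ≤ be e ∧ be e ≤ b₁)
    (hU : UB sT tT (ANR.cE G κ A) al be) (f h : Tor d M → ℝ) :
    ANR.cE G κ B f ≤ (2 + 2 * (d : ℝ) ^ 2 * ((L : ℝ) / R) ^ 2 * (b₁ / b₀)) *
      morB sT tT (Box a₀ L) al be f h := by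
  have h0 : ∀ f, 0 ≤ ANR.cE G κ B f := cE_nonneg G κ fun x hx => hκ x (hBA hx)
  have h1 := ltgT a₀ hL hLM hR hb₀ hb₁ ha hbe hU (n := 1) zero_le_one
    (D := ANR.cE G κ B) (fun f _ => by
      rw [abs_of_nonneg (h0 f), one_mul]
      exact cE_mono G κ hBA hκ f)
    (fun f g c hc => cE_congr G κ B c fun x hx => hc x (hB x hx)) f h
  rw [abs_of_nonneg (h0 f), one_mul] at h1
  exact h1

end Pool.Agent.CTC
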