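import Mathlib

/-!
# Clusters of a finite set
-/

set_option autoImplicit false

open Finset

namespace Pool.Agent.CTC

/-- (COMP) A finite set splits into clusters: different clusters are farther apart than `t`, and every
site is within distance `card * t` of the representative of its cluster. -/
theorem comp {X : Type} [DecidableEq X] (D : X → X → ℕ) (h0 : ∀ x, D x x = 0)
    (hc : ∀ x y, D x y = D y x) (ht : ∀ x y z, D x z ≤ D x y + D y z) (S : Finset X) (t : ℕ) :
    ∃ rep : X → X, (∀ x ∈ S, rep x ∈ S ∧ rep (rep x) = rep x ∧ D x (rep x) ≤ S.card * t) ∧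
      ∀ x ∈ S, ∀ y ∈ S, rep x ≠ rep y → t < D x y := by
  classical
  let G : SimpleGraph {x // x ∈ S} := SimpleGraph.fromRel fun u v => D u.1 v.1 ≤ t
  have hwalk : ∀ (u v : {x // x ∈ S}) (p : G.Walk u v), D u.1 v.1 ≤ p.length * t := by
    intro u v p
    induction p with
    | nil => rw [h0]; exact Nat.zero_le _
    | @cons a b c hab p ih =>
      have h1 : D a.1 b.1 ≤ t := by
        rw [SimpleGraph.fromRel_adj] at hab
        rcases hab.2 with h | h
        · exact h
        · rw [hc]; exact h
      have h2 := ht a.1 b.1 c.1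
      rw [SimpleGraph.Walk.length_cons, add_mul, one_mul]
      omega
  let rp : {x // x ∈ S} → {x // x ∈ S} := fun u => (G.connectedComponentMk u).out
  have hrp : ∀ u, G.Reachable (rp u) u := fun u =>
    SimpleGraph.ConnectedComponent.exact (Quot.out_eq (G.connectedComponentMk u))
  have hrr : ∀ u, rp (rp u) = rp u := by
    intro u
    have : G.connectedComponentMk (rp u) = G.connectedComponentMk u :=
      SimpleGraph.ConnectedComponent.sound (hrp u)
    show (G.connectedComponentMk (rp u)).out = (G.connectedComponentMk u).out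
    rw [this]
  refine ⟨fun x => if h : x ∈ S then (rp ⟨x, h⟩).1 else x, ?_, ?_⟩
  · intro x hx
    have e : (fun x => if h : x ∈ S then (rp ⟨x, h⟩).1 else x) x = (rp ⟨x, hx⟩).1 := dif_pos hx
    rw [e]
    refine ⟨(rp ⟨x, hx⟩).2, ?_, ?_⟩
    · have e2 : (fun x => if h : x ∈ S then (rp ⟨x, h⟩).1 else x) (rp ⟨x, hx⟩).1 =
          (rp ⟨(rp ⟨x, hx⟩).1, (rp ⟨x, hx⟩).2⟩).1 := dif_pos (rp ⟨x, hx⟩).2
      rw [e2]
      exact congrArg Subtype.val (hrr ⟨x, hx⟩)
    · obtain ⟨p, hp⟩ := (hrp ⟨x, hx⟩).symm.exists_isPath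
      have h1 := hwalk _ _ p
      have h2 : p.length ≤ S.card := by
        have h3 := hp.length_lt
        rw [Fintype.card_coe] at h3
        exact h3.le
      exact h1.trans (Nat.mul_le_mul_right t h2)
  · intro x hx y hy hne
    by_contra hcon
    push Not at hcon
    apply hne
    have e1 : (fun x => if h : x ∈ S then (rp ⟨x, h⟩).1 else x) x = (rp ⟨x, hx⟩).1 := dif_pos hx
    have e2 : (fun x => if h : x ∈ S then (rp ⟨x, h⟩).1 else x) y = (rp ⟨y, hy⟩).1 := dif_pos hy
    rw [e1, e2]
    have hreach : G.Reachable ⟨x, hx⟩ ⟨y, hy⟩ := by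
      by_cases hxy : x = y
      · subst hxy
        exact SimpleGraph.Reachable.refl _
      · apply SimpleGraph.Adj.reachable
        rw [SimpleGraph.fromRel_adj]
        refine ⟨fun h => hxy (congrArg Subtype.val h), Or.inl hcon⟩
    have : G.connectedComponentMk ⟨x, hx⟩ = G.connectedComponentMk ⟨y, hy⟩ :=
      SimpleGraph.ConnectedComponent.sound hreach
    show (G.connectedComponentMk ⟨x, hx⟩).out.1 = (G.connectedComponentMk ⟨y, hy⟩).out.1
    rw [this]

end Pool.Agent.CTC
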