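import Pool.Agent.Helper34_CTC.Tai

/-!
# Tails on the torus: exponential weights
-/

set_option autoImplicit false
set_option linter.unusedSectionVars false

open scoped BigOperators
open Finset

noncomputable section

namespace Pool.Agent.CTC

open Pool.Agent.LTG Pool.Agent.ANP.H61

variable {d M : ℕ} [NeZero M]

theorem fiber_cd (b : ZMod M) (n : ℕ) : ({a | cd a b = n} : Finset (ZMod M)).card ≤ 2 := by
  have hsub : ({a | cd a b = n} : Finset (ZMod M)) ⊆ {b + (n : ZMod M), b - (n : ZMod M)} := by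
    intro a ha
    rw [Finset.mem_filter] at ha
    obtain ⟨k, hk, hk2⟩ := exists_int a b
    rw [ha.2] at hk2
    rw [Finset.mem_insert, Finset.mem_singleton]
    rcases Int.natAbs_eq k with h | h
    · left
      rw [hk2] at h
      rw [h] at hk
      push_cast at hk
      rw [← hk]
      ring
    · right
      rw [hk2] at h
      rw [h] at hk
      push_cast at hk
      have : a = b + (a - b) := by ring
      rw [this, hk]
      ring
  exact (Finset.card_le_card hsub).trans Finset.card_le_two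

theorem one_sub_exp {γ : ℝ} (h0 : 0 < γ) (h1 : γ ≤ 1) : γ / 2 ≤ 1 - Real.exp (-γ) := by
  have h := Real.add_one_le_exp γ
  have h2 : Real.exp (-γ) * Real.exp γ = 1 := by rw [← Real.exp_add]; simp
  have h3 : 0 < Real.exp (-γ) := Real.exp_pos _
  nlinarith [mul_le_mul_of_nonneg_left h h3.le]

theorem geo_exp {γ : ℝ} (h0 : 0 < γ) (h1 : γ ≤ 1) (N : ℕ) :
    ∑ n ∈ Finset.range N, Real.exp (-(γ * n)) ≤ 2 / γ := by
  have hr0 : 0 < Real.exp (-γ) := Real.exp_pos _
  have hr1 : Real.exp (-γ) < 1 := by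
    rw [Real.exp_lt_one_iff]
    linarith
  have e : ∀ n : ℕ, Real.exp (-(γ * n)) = Real.exp (-γ) ^ n := fun n => by
    rw [← Real.exp_nat_mul]
    congr 1
    ring
  simp only [e]
  have h2 : ∑ n ∈ Finset.range N, Real.exp (-γ) ^ n ≤ 1 / (1 - Real.exp (-γ)) := by
    rw [geom_sum_eq hr1.ne, ← neg_div_neg_eq, neg_sub, neg_sub]
    have h3 : 0 < 1 - Real.exp (-γ) := by linarith
    gcongr
    linarith [pow_pos hr0 N]
  have h3 := one_sub_exp h0 h1
  refine h2.trans ?_
  rw [div_le_div_iff₀ (by linarith) h0]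
  linarith

theorem sum_cd {γ : ℝ} (h0 : 0 < γ) (h1 : γ ≤ 1) (b : ZMod M) :
    ∑ a : ZMod M, Real.exp (-(γ * cd a b)) ≤ 4 / γ := by
  have hlt : ∀ a ∈ (Finset.univ : Finset (ZMod M)), cd a b ∈ Finset.range (M + 1) := by
    intro a _
    rw [Finset.mem_range]
    have : cd a b ≤ M / 2 := ZMod.natAbs_valMinAbs_le _
    omega
  rw [← Finset.sum_fiberwise_of_maps_to hlt]
  have h2 : ∀ n ∈ Finset.range (M + 1), ∑ a ∈ (Finset.univ : Finset (ZMod M)) with cd a b = n,
      Real.exp (-(γ * cd a b)) ≤ 2 * Real.exp (-(γ * n)) := by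
    intro n _
    have e : ∑ a ∈ (Finset.univ : Finset (ZMod M)) with cd a b = n, Real.exp (-(γ * cd a b)) =
        ∑ a ∈ (Finset.univ : Finset (ZMod M)) with cd a b = n, Real.exp (-(γ * n)) :=
      Finset.sum_congr rfl fun a ha => by rw [(Finset.mem_filter.1 ha).2]
    rw [e, Finset.sum_const, nsmul_eq_mul]
    have : (({a | cd a b = n} : Finset (ZMod M)).card : ℝ) ≤ 2 := by
      exact_mod_cast fiber_cd b n
    exact mul_le_mul_of_nonneg_right this (Real.exp_pos _).le
  refine (Finset.sum_le_sum h2).trans ?_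
  rw [← Finset.mul_sum]
  have := geo_exp h0 h1 (M + 1)
  have e : (4 : ℝ) / γ = 2 * (2 / γ) := by ring
  rw [e]
  linarith

theorem sum_l1 {γ : ℝ} (h0 : 0 < γ) (h1 : γ ≤ 1) (b : Tor d M) :
    ∑ x : Tor d M, Real.exp (-(γ * l1 x b)) ≤ (4 / γ) ^ d := by
  have e : ∀ x : Tor d M, Real.exp (-(γ * l1 x b)) = ∏ i, Real.exp (-(γ * cd (x i) (b i))) := by
    intro x
    rw [← Real.exp_sum]
    congr 1
    unfold l1
    push_cast
    rw [Finset.mul_sum, Finset.sum_neg_distrib]
  simp only [e]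
  have h2 := Finset.prod_univ_sum (fun _ : Fin d => (Finset.univ : Finset (ZMod M)))
    (fun i a => Real.exp (-(γ * cd a (b i))))
  rw [Fintype.piFinset_univ] at h2
  rw [← h2]
  calc ∏ i : Fin d, ∑ a : ZMod M, Real.exp (-(γ * cd a (b i))) ≤ ∏ _i : Fin d, (4 / γ) := by
        refine Finset.prod_le_prod (fun i _ => Finset.sum_nonneg fun a _ => (Real.exp_pos _).le)
          fun i _ => sum_cd h0 h1 (b i)
    _ = (4 / γ) ^ d := by rw [Finset.prod_const, Finset.card_univ, Fintype.card_fin]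

/-- the constant of the tail lemma -/
def CT (d : ℕ) (c : ℝ) : ℝ := 96 / (c / d) ^ 2 * (16 / (c / d)) ^ (2 * d)

theorem sq_exp {t : ℝ} (ht : 0 ≤ t) : t ^ 2 ≤ 2 * Real.exp t := by
  have := Real.quadratic_le_exp_of_nonneg ht
  nlinarith

theorem pw_bound {W γ S l T : ℝ} (hW : 0 ≤ W) (hγ : 0 < γ) (hS : 0 ≤ S) (hl : l ≤ 2 * S)
    (hT0 : 0 ≤ T) (hT : T ≤ S) : W * Real.exp (-(γ * S)) * T ^ 2 ≤
      W * (32 / γ ^ 2) * Real.exp (-(γ / 4 * l)) * Real.exp (-(γ / 4 * S)) := by
  have h1 : T ^ 2 ≤ S ^ 2 := pow_le_pow_left₀ hT0 hT 2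
  have h2 : S ^ 2 ≤ 32 / γ ^ 2 * Real.exp (γ / 4 * S) := by
    have h3 := sq_exp (t := γ / 4 * S) (by positivity)
    have h4 : (γ / 4 * S) ^ 2 = γ ^ 2 * S ^ 2 / 16 := by ring
    rw [h4] at h3
    rw [div_mul_eq_mul_div, le_div_iff₀ (by positivity)]
    linarith
  have h5 : Real.exp (-(γ * S)) * Real.exp (γ / 4 * S) ≤
      Real.exp (-(γ / 4 * l)) * Real.exp (-(γ / 4 * S)) := by
    rw [← Real.exp_add, ← Real.exp_add]
    apply Real.exp_le_exp.2
    nlinarith
  calc W * Real.exp (-(γ * S)) * T ^ 2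
      ≤ W * Real.exp (-(γ * S)) * (32 / γ ^ 2 * Real.exp (γ / 4 * S)) := by
        refine mul_le_mul_of_nonneg_left (h1.trans h2) (mul_nonneg hW (Real.exp_pos _).le)
    _ = W * (32 / γ ^ 2) * (Real.exp (-(γ * S)) * Real.exp (γ / 4 * S)) := by ring
    _ ≤ W * (32 / γ ^ 2) * (Real.exp (-(γ / 4 * l)) * Real.exp (-(γ / 4 * S))) :=
        mul_le_mul_of_nonneg_left h5 (by positivity)
    _ = _ := by ring

/-- (TLT) TAILS. Pair weights on the nodes `A` which decay away from the site `b`. -/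
theorem tlt (hd : 0 < d) (b : Tor d M) (A : Finset (Tor d M)) (w : Tor d M → Tor d M → ℝ)
    {W c : ℝ} (hW : 0 ≤ W) (hc : 0 < c) (hc1 : c ≤ 1) (hw : ∀ x y, 0 ≤ w x y)
    (hwA : ∀ x y, ¬ (x ∈ A ∧ y ∈ A) → w x y = 0)
    (hwW : ∀ x y, w x y ≤ W * Real.exp (-(c * (sd x b + sd y b)))) (f h : Tor d M → ℝ) :
    ∑ x, ∑ y, w x y * (f x - f y) ^ 2 ≤
      mor sT tT (fun x => if x ∈ A then CT d c * W * Real.exp (-(c / (4 * d) * sd x b)) else 0)
        (fun e => CT d c * W * Real.exp (-(c / (4 * d) * sd (sT e) b))) f h := by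
  have hd' : (0 : ℝ) < d := by exact_mod_cast hd
  have hd1 : (1 : ℝ) ≤ d := by exact_mod_cast hd
  set γ : ℝ := c / d with hγ
  have hγ0 : 0 < γ := by positivity
  have hγ1 : γ ≤ 1 := by
    rw [hγ, div_le_one hd']
    linarith
  have hcd : c / (4 * d) = γ / 4 := by rw [hγ]; field_simp
  have hγd : c = γ * d := by rw [hγ]; field_simp
  -- the weights in the `ℓ¹` distance
  have hl : ∀ x y, w x y ≤ W * Real.exp (-(γ * ((l1 x b : ℝ) + l1 y b))) := by
    intro x y
    refine (hwW x y).trans (mul_le_mul_of_nonneg_left (Real.exp_le_exp.2 ?_) hW)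
    have h1 : (l1 x b : ℝ) ≤ d * sd x b := by exact_mod_cast l1_le_sd x b
    have h2 : (l1 y b : ℝ) ≤ d * sd y b := by exact_mod_cast l1_le_sd y b
    rw [hγd]
    nlinarith
  have hS4 : ∑ x : Tor d M, Real.exp (-(γ / 4 * l1 x b)) ≤ (16 / γ) ^ d := by
    refine (sum_l1 (by positivity) (by linarith) b).trans (le_of_eq ?_)
    congr 1
    field_simp
    ring
  have hS1 : ∑ x : Tor d M, Real.exp (-(γ * l1 x b)) ≤ (4 / γ) ^ d := sum_l1 hγ0 hγ1 b
  have hCT : CT d c = 96 / γ ^ 2 * (16 / γ) ^ (2 * d) := rfl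
  have h16 : 1 ≤ 16 / γ := by
    rw [le_div_iff₀ hγ0]
    linarith
  refine (tlp w hw f h).trans (mor_mono sT tT (fun x => ?_) (fun e => ?_) f h)
  · -- nodes
    by_cases hx : x ∈ A
    · rw [if_pos hx, hcd]
      have h1 : ∑ y, (w x y + w y x) ≤ 2 * (W * Real.exp (-(γ * l1 x b)) * (4 / γ) ^ d) := by
        have h2 : ∀ y, w x y + w y x ≤ 2 * (W * Real.exp (-(γ * l1 x b)) *
            Real.exp (-(γ * l1 y b))) := by
          intro y
          have h3 := hl x y
          have h4 := hl y x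
          have e1 : Real.exp (-(γ * ((l1 x b : ℝ) + l1 y b))) =
              Real.exp (-(γ * l1 x b)) * Real.exp (-(γ * l1 y b)) := by
            rw [← Real.exp_add]
            congr 1
            ring
          have e2 : Real.exp (-(γ * ((l1 y b : ℝ) + l1 x b))) =
              Real.exp (-(γ * l1 x b)) * Real.exp (-(γ * l1 y b)) := by
            rw [← Real.exp_add]
            congr 1
            ring
          rw [e1] at h3
          rw [e2] at h4
          linarith
        refine (Finset.sum_le_sum fun y _ => h2 y).trans ?_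
        rw [← Finset.mul_sum, ← Finset.mul_sum]
        have h5 : 0 ≤ W * Real.exp (-(γ * l1 x b)) := mul_nonneg hW (Real.exp_pos _).le
        exact mul_le_mul_of_nonneg_left (mul_le_mul_of_nonneg_left hS1 h5) (by norm_num)
      have h6 : Real.exp (-(γ * l1 x b)) ≤ Real.exp (-(γ / 4 * sd x b)) := by
        apply Real.exp_le_exp.2
        have h7 : (sd x b : ℝ) ≤ l1 x b := by exact_mod_cast sd_le_l1 x b
        have h8 : (0 : ℝ) ≤ sd x b := Nat.cast_nonneg _
        nlinarith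
      have h9 : 6 * (4 / γ) ^ d ≤ CT d c := by
        rw [hCT]
        have i1 : (6 : ℝ) ≤ 96 / γ ^ 2 := by
          rw [le_div_iff₀ (by positivity)]
          nlinarith
        have i2 : (4 / γ) ^ d ≤ (16 / γ) ^ (2 * d) := by
          calc (4 / γ) ^ d ≤ (16 / γ) ^ d := by gcongr; norm_num
            _ ≤ (16 / γ) ^ (2 * d) := pow_le_pow_right₀ h16 (by omega)
        exact mul_le_mul i1 i2 (by positivity) (by positivity)
      calc 3 * ∑ y, (w x y + w y x) ≤ 3 * (2 * (W * Real.exp (-(γ * l1 x b)) * (4 / γ) ^ d)) := by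
            linarith
        _ = 6 * (4 / γ) ^ d * W * Real.exp (-(γ * l1 x b)) := by ring
        _ ≤ CT d c * W * Real.exp (-(γ / 4 * sd x b)) := by
            refine mul_le_mul (mul_le_mul_of_nonneg_right h9 hW) h6 (Real.exp_pos _).le ?_
            exact mul_nonneg ((by positivity : (0 : ℝ) ≤ 6 * (4 / γ) ^ d).trans h9) hW
    · rw [if_neg hx]
      have : ∑ y, (w x y + w y x) = 0 := Finset.sum_eq_zero fun y _ => by
        rw [hwA x y (fun h => hx h.1), hwA y x (fun h => hx h.2), add_zero]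
      rw [this, mul_zero]
  · -- bonds
    rw [hcd]
    set K : ℝ := W * (32 / γ ^ 2) * Real.exp (-(γ / 4 * l1 (sT e) b)) with hK
    have hK0 : 0 ≤ K := by positivity
    have h1 : ∀ x y, (if l1 x (sT e) ≤ l1 x y ∧ l1 y (sT e) ≤ l1 x y then
        w x y * (l1 x y : ℝ) ^ 2 else 0) ≤
        K * (Real.exp (-(γ / 4 * l1 x b)) * Real.exp (-(γ / 4 * l1 y b))) := by
      intro x y
      split
      · rename_i hxy
        have t1 : l1 x y ≤ l1 x b + l1 y b := by
          have := l1_tri x b y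
          rwa [l1_comm b y] at this
        have t2 : l1 (sT e) b ≤ 2 * (l1 x b + l1 y b) := by
          have h2 := l1_tri (sT e) x b
          rw [l1_comm (sT e) x] at h2
          omega
        have t1' : (l1 x y : ℝ) ≤ (l1 x b : ℝ) + l1 y b := by exact_mod_cast t1
        have t2' : (l1 (sT e) b : ℝ) ≤ 2 * ((l1 x b : ℝ) + l1 y b) := by exact_mod_cast t2
        have h3 := pw_bound hW hγ0 (S := (l1 x b : ℝ) + l1 y b) (by positivity) t2'
          (Nat.cast_nonneg _) t1'
        refine (mul_le_mul_of_nonneg_right (hl x y) (sq_nonneg _)).trans (h3.trans (le_of_eq ?_))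
        rw [hK, ← Real.exp_add (-(γ / 4 * (l1 x b : ℝ)))]
        congr 2
        ring
      · positivity
    have h2 : ∑ x, ∑ y, (if l1 x (sT e) ≤ l1 x y ∧ l1 y (sT e) ≤ l1 x y then
        w x y * (l1 x y : ℝ) ^ 2 else 0) ≤ K * (16 / γ) ^ (2 * d) := by
      refine (Finset.sum_le_sum fun x _ => Finset.sum_le_sum fun y _ => h1 x y).trans ?_
      have e1 : ∑ x : Tor d M, ∑ y : Tor d M,
          K * (Real.exp (-(γ / 4 * l1 x b)) * Real.exp (-(γ / 4 * l1 y b))) =
          K * ((∑ x : Tor d M, Real.exp (-(γ / 4 * l1 x b))) *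
            ∑ y : Tor d M, Real.exp (-(γ / 4 * l1 y b))) := by
        rw [Finset.sum_mul_sum, Finset.mul_sum]
        exact Finset.sum_congr rfl fun x _ => by rw [Finset.mul_sum]
      rw [e1]
      refine mul_le_mul_of_nonneg_left ?_ hK0
      have e2 : (16 / γ) ^ (2 * d) = (16 / γ) ^ d * (16 / γ) ^ d := by rw [two_mul, pow_add]
      rw [e2]
      exact mul_le_mul hS4 hS4 (Finset.sum_nonneg fun x _ => (Real.exp_pos _).le) (by positivity)
    have h3 : Real.exp (-(γ / 4 * l1 (sT e) b)) ≤ Real.exp (-(γ / 4 * sd (sT e) b)) := by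
      apply Real.exp_le_exp.2
      have h7 : (sd (sT e) b : ℝ) ≤ l1 (sT e) b := by exact_mod_cast sd_le_l1 (sT e) b
      nlinarith
    calc 3 * ∑ x, ∑ y, (if l1 x (sT e) ≤ l1 x y ∧ l1 y (sT e) ≤ l1 x y then
        w x y * (l1 x y : ℝ) ^ 2 else 0) ≤ 3 * (K * (16 / γ) ^ (2 * d)) := by linarith
      _ = 96 / γ ^ 2 * (16 / γ) ^ (2 * d) * W * Real.exp (-(γ / 4 * l1 (sT e) b)) := by
          rw [hK]
          ring
      _ ≤ CT d c * W * Real.exp (-(γ / 4 * sd (sT e) b)) := by
          rw [hCT]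
          exact mul_le_mul_of_nonneg_left h3 (by positivity)

end Pool.Agent.CTC
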