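import Pool.Agent.Helper22_LTG.Fbk
import Pool.Agent.Helper34_CTC.Box
import Pool.Agent.Helper34_CTC.Tlt

/-!
# Cut and release in the normal form `Fm`
-/

set_option autoImplicit false
set_option linter.unusedSectionVars false

open scoped BigOperators
open Finset

noncomputable section

namespace Pool.Agent.CTC

open Pool.Agent.LTG Pool.Agent.ANR Pool.Agent.ANP.H61

section graph

variable {X : Type} [Fintype X] [DecidableEq X] {ep : Type*} [Fintype ep] {s t : ep → X}

/-- (FMC) THE CUT in normal form: the nodes `Q` leave the network -/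
theorem fm_cut (hcut : CutStmt) {G : Matrix X X ℂ} {κ : X → ℝ} {A Q : Finset X} (hQA : Q ⊆ A)
    (hs : ∀ x y, G x y = G y x) (hκ : ∀ x ∈ A, 0 ≤ κ x)
    {w εl εu v : X → ℝ} {bl bu dl : ep → ℝ} (h : Fm s t A w εl εu bl bu (cE G κ A))
    (hw : ∀ x ∈ A, 0 ≤ w x) (h0 : ∀ x ∈ A, 0 ≤ εl x) (h1 : ∀ x ∈ A, εl x ≤ 1 / 4)
    (hv0 : ∀ x ∈ A, 0 ≤ v x) (hv : ∀ x ∈ A, v x ≤ 1 / 16)
    (hab : ∀ f h, ∑ x, cw G κ A Q x * (f x - wm (cw G κ A Q) f) ^ 2 ≤
      mor s t (fun x => if x ∈ A \ Q then v x * w x else 0) dl f h) :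
    Fm s t (A \ Q) w (fun x => εl x + 4 * v x) εu (fun e => bl e - dl e) bu
      (cE G κ (A \ Q)) := by
  constructor
  · have hal : ∀ x, 0 ≤ wl A w εl x := fun x => by
      unfold wl
      split
      · rename_i hx
        have := hw x hx
        have := h0 x hx
        positivity
      · exact le_rfl
    have h2 := ctc_lb s t hcut hQA hs hal h.lb hab
    refine lb_mono s t (fun x => ?_) (fun e => le_rfl) h2
    unfold wl
    by_cases hx : x ∈ A \ Q
    · have hxA := (Finset.mem_sdiff.1 hx).1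
      have hxQ := (Finset.mem_sdiff.1 hx).2
      rw [if_pos hx, if_neg hxQ, if_pos hxA, if_pos hx]
      have a1 := hw x hxA
      have a2 := h0 x hxA
      have a3 := h1 x hxA
      have a4 := hv0 x hxA
      have a5 := hv x hxA
      have p1 : 0 < 1 + εl x := by linarith
      have p2 : 0 < 1 + (εl x + 4 * v x) := by linarith
      have key : 1 / (1 + (εl x + 4 * v x)) ≤ 1 / (1 + εl x) - v x := by
        have e1 : 1 / (1 + εl x) - v x - 1 / (1 + (εl x + 4 * v x)) =
            v x * (4 - (1 + εl x) * (1 + (εl x + 4 * v x))) /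
              ((1 + εl x) * (1 + (εl x + 4 * v x))) := by
          field_simp
          ring
        have e2 : 0 ≤ v x * (4 - (1 + εl x) * (1 + (εl x + 4 * v x))) /
              ((1 + εl x) * (1 + (εl x + 4 * v x))) := by
          apply div_nonneg _ (by positivity)
          apply mul_nonneg a4
          nlinarith
        linarith
      calc w x / (1 + (εl x + 4 * v x)) = w x * (1 / (1 + (εl x + 4 * v x))) := by ring
        _ ≤ w x * (1 / (1 + εl x) - v x) := mul_le_mul_of_nonneg_left key a1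
        _ = w x / (1 + εl x) - v x * w x := by ring
    · rw [if_neg hx, if_neg hx, sub_zero]
      split
      · exact le_rfl
      · split
        · rename_i hxA
          have := hw x hxA
          have := h0 x hxA
          positivity
        · exact le_rfl
  · have h2 := ctc_ub (Q := Q) s t hκ h.ub
    refine ub_mono s t (fun x => ?_) (fun e => le_rfl) (ub_off s t h2)
    unfold wu
    by_cases hx : x ∈ A \ Q
    · rw [if_pos hx, if_pos hx, if_neg (Finset.mem_sdiff.1 hx).2, if_pos (Finset.mem_sdiff.1 hx).1]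
    · rw [if_neg hx, if_neg hx]

/-- (FMR) THE RELEASE in normal form, any graph: all inputs as Moreau expressions -/
theorem fm_rel (hfrx : FrxStmt) {G G' : Matrix X X ℂ} {κ : X → ℝ} {A B : Finset X}
    (m : X → ℝ) {ε : ℝ} (hs : ∀ x y, G x y = G y x) (hs' : ∀ x y, G' x y = G' y x)
    (hκ : ∀ x ∈ A, 0 ≤ κ x) (hBA : B ⊆ A) (hε : 0 < ε) (hε1 : ε ≤ 1)
    (hm : ∀ x ∈ B, ∑ y ∈ B, κ y * ‖G x y - G' x y‖ ^ 2 ≤ m x)
    {w εl εu v₁ v₂ v₃ : X → ℝ} {bl bu d₁ d₂ d₃ : ep → ℝ}
    (h : Fm s t A w εl εu bl bu (cE G κ A))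
    (hw : ∀ x ∈ A, 0 ≤ w x) (h0 : ∀ x ∈ A, 0 ≤ εl x) (h1 : ∀ x ∈ A, εl x ≤ 1 / 4)
    (h0u : ∀ x ∈ A, 0 ≤ εu x)
    (h1u : ∀ x ∈ A, εu x + 4 * (ε * v₁ x + 4 / ε * v₂ x + v₃ x) < 1)
    (hv0 : ∀ x ∈ A, 0 ≤ ε * v₁ x + 4 / ε * v₂ x + v₃ x)
    (hv : ∀ x ∈ A, ε * v₁ x + 4 / ε * v₂ x + v₃ x ≤ 1 / 16)
    (hB : ∀ f h, cE G κ B f ≤ mor s t (fun x => if x ∈ A then v₁ x * w x else 0) d₁ f h)
    (hab : ∀ f h, ∑ x, (if x ∈ B then κ x * m x else 0) *
      (f x - wm (fun x => if x ∈ B then κ x * m x else 0) f) ^ 2 ≤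
        mor s t (fun x => if x ∈ A then v₂ x * w x else 0) d₂ f h)
    (htl : ∀ f h, tl G G' κ A B f ≤ mor s t (fun x => if x ∈ A then v₃ x * w x else 0) d₃ f h) :
    Fm s t A w (fun x => εl x + 4 * (ε * v₁ x + 4 / ε * v₂ x + v₃ x))
      (fun x => εu x + 4 * (ε * v₁ x + 4 / ε * v₂ x + v₃ x))
      (fun e => bl e - (ε * d₁ e + 4 / ε * d₂ e + d₃ e))
      (fun e => bu e + (ε * d₁ e + 4 / ε * d₂ e + d₃ e)) (cE G' κ A) := by
  refine fm_err (v := fun x => ε * v₁ x + 4 / ε * v₂ x + v₃ x)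
    (dl := fun e => ε * d₁ e + 4 / ε * d₂ e + d₃ e) h hw h0 h1 h0u h1u hv0 hv fun f g => ?_
  refine (rel_err s t hfrx m hs hs' hκ hBA hε hε1 hm hB hab htl f g).trans (le_of_eq ?_)
  congr 1
  funext x
  split <;> ring

end graph

section torus

variable {d M : ℕ} [NeZero M]

/-- the weighted variance as a pair form -/
theorem wvar {X : Type*} [Fintype X] (a f : X → ℝ) (ha : ∀ x, 0 ≤ a x) :
    ∑ x, a x * (f x - wm a f) ^ 2 =
      ∑ x, ∑ y, a x * a y / (2 * ∑ z, a z) * (f x - f y) ^ 2 := by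
  set T := ∑ z, a z with hT
  set m := wm a f with hm
  have h0 : 0 ≤ T := Finset.sum_nonneg fun x _ => ha x
  rcases eq_or_lt_of_le h0 with h | h
  · have hz : ∀ x, a x = 0 := fun x =>
      (Finset.sum_eq_zero_iff_of_nonneg fun x _ => ha x).mp (hT ▸ h.symm) x (Finset.mem_univ x)
    simp [hz]
  · have e0 : ∑ x, a x * f x = m * T := by
      rw [hm]
      unfold wm
      rw [← hT, div_mul_cancel₀ _ h.ne']
    have e1 : ∀ x y, a x * a y / (2 * T) * (f x - f y) ^ 2 =
        (a x * (f x - m) ^ 2) * a y * (1 / (2 * T)) +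
        a x * (a y * (f y - m) ^ 2) * (1 / (2 * T)) -
        (a x * (f x - m)) * (a y * (f y - m)) * (1 / T) := by
      intro x y
      field_simp
      ring
    have e2 : ∑ x, a x * (f x - m) = 0 := by
      have : ∑ x, a x * (f x - m) = ∑ x, a x * f x - m * T := by
        rw [hT, Finset.mul_sum, ← Finset.sum_sub_distrib]
        exact Finset.sum_congr rfl fun x _ => by ring
      rw [this, e0, sub_self]
    simp only [e1, Finset.sum_add_distrib, Finset.sum_sub_distrib, ← Finset.sum_mul,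
      ← Finset.mul_sum]
    rw [e2, ← hT]
    field_simp
    ring

theorem mor_cut_le (B : Tor d M → Prop) [DecidablePred B] (al : Tor d M → ℝ) (be : Bd d M → ℝ)
    (f h : Tor d M → ℝ) : morB sT tT B al be f h =
      mor sT tT (fun x => if B x then al x else 0)
        (fun e => if B (sT e) ∧ B (tT e) then be e else 0) f h := rfl

/-- (CAB) THE CUT ABSORBER on the torus: weights which are bounded in a dyadic cube and decay outside -/
theorem cab (hd : 3 ≤ d) {k : ℕ} (J : ℕ) (hM : 2 ^ k ≤ M) (a₀ b : Tor d M)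
    (A : Finset (Tor d M)) {a w : Tor d M → ℝ} {θ T δ W c : ℝ} (ha : ∀ x, 0 ≤ a x)
    (haA : ∀ x, x ∉ A → a x = 0) (haθ : ∀ x, Box a₀ (2 ^ k) x → a x ≤ θ)
    (haT : ∑ x, (if Box a₀ (2 ^ k) x then a x else 0) ≤ T) (hθ : 0 ≤ θ)
    (hδ : 0 ≤ δ) (hw : ∀ x ∈ A, 0 ≤ w x)
    (hal : ∀ x ∈ A, Box a₀ (2 ^ k) x → a x ≤ δ * w x) (hW : 0 ≤ W) (hc : 0 < c) (hc1 : c ≤ 1)
    (hout : ∀ x, ¬ Box a₀ (2 ^ k) x → a x ≤ W * Real.exp (-(c * sd x b)))
    (hgeo : ∀ x y, ¬ Box a₀ (2 ^ k) x → Box a₀ (2 ^ k) y → sd y b ≤ 2 * sd x b)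
    (f h : Tor d M → ℝ) :
    ∑ x, a x * (f x - wm a f) ^ 2 ≤
      mor sT tT (fun x => if x ∈ A then (if Box a₀ (2 ^ k) x then 2 * δ * w x else 0) +
          CT d (c / 3) * W * Real.exp (-(c / 3 / (4 * d) * sd x b)) else 0)
        (fun e => (if Box a₀ (2 ^ k) (sT e) ∧ Box a₀ (2 ^ k) (tT e) then 2 * fac d J θ T else 0) +
          CT d (c / 3) * W * Real.exp (-(c / 3 / (4 * d) * sd (sT e) b))) f h := by
  set B : Tor d M → Prop := Box a₀ (2 ^ k) with hBdef
  set S : ℝ := ∑ z, a z with hS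
  have hS0 : 0 ≤ S := Finset.sum_nonneg fun x _ => ha x
  set a₁ : Tor d M → ℝ := fun x => if B x then a x else 0 with ha₁
  have ha₁0 : ∀ x, 0 ≤ a₁ x := fun x => by
    rw [ha₁]
    dsimp only
    split
    · exact ha x
    · exact le_rfl
  -- the pairs inside the box
  set w' : Tor d M → Tor d M → ℝ := fun x y => if B x ∧ B y then 0 else a x * a y / (2 * S)
    with hw'
  have hsplit : ∑ x, a x * (f x - wm a f) ^ 2 ≤
      ∑ x, a₁ x * (f x - wm a₁ f) ^ 2 + ∑ x, ∑ y, w' x y * (f x - f y) ^ 2 := by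
    rw [wvar a f ha, wvar a₁ f ha₁0, ← Finset.sum_add_distrib]
    refine Finset.sum_le_sum fun x _ => ?_
    rw [← Finset.sum_add_distrib]
    refine Finset.sum_le_sum fun y _ => ?_
    by_cases hxy : B x ∧ B y
    · have e1 : a₁ x = a x := if_pos hxy.1
      have e2 : a₁ y = a y := if_pos hxy.2
      have e3 : w' x y = 0 := if_pos hxy
      rw [e1, e2, e3, zero_mul, add_zero]
      refine mul_le_mul_of_nonneg_right ?_ (sq_nonneg _)
      have hS1 : ∑ z, a₁ z ≤ S := Finset.sum_le_sum fun z _ => by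
        rw [ha₁]
        dsimp only
        split
        · exact le_rfl
        · exact ha z
      have hS1' : 0 ≤ ∑ z, a₁ z := Finset.sum_nonneg fun z _ => ha₁0 z
      rcases eq_or_lt_of_le hS1' with h0 | h0
      · have hz : a₁ x = 0 := (Finset.sum_eq_zero_iff_of_nonneg fun z _ => ha₁0 z).mp h0.symm x
          (Finset.mem_univ x)
        rw [e1] at hz
        rw [hz]
        simp
      · have := mul_nonneg (ha x) (ha y)
        exact div_le_div_of_nonneg_left this (by linarith) (by linarith)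
    · have e3 : w' x y = a x * a y / (2 * S) := if_neg hxy
      rw [e3]
      have : 0 ≤ a₁ x * a₁ y / (2 * ∑ z, a₁ z) * (f x - f y) ^ 2 := by
        have := ha₁0 x
        have := ha₁0 y
        have : 0 ≤ ∑ z, a₁ z := Finset.sum_nonneg fun z _ => ha₁0 z
        positivity
      linarith
  -- the box
  have hδw : ∀ x, a₁ x ≤ δ * (if x ∈ A then w x else 0) := by
    intro x
    rw [ha₁]
    dsimp only
    by_cases hx : x ∈ A
    · rw [if_pos hx]
      by_cases hb : B x
      · rw [if_pos hb]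
        exact hal x hx hb
      · rw [if_neg hb]
        exact mul_nonneg hδ (hw x hx)
    · rw [if_neg hx, haA x hx]
      simp
  have h1 := bxa hd J hM a₀ (al := fun x => if x ∈ A then w x else 0) (be := fun _ => 1)
    (θ := θ) (T := T) (δ := δ) (b₀ := 1) ha₁0 (fun x hx => if_neg hx)
    (fun x => by
      rw [ha₁]
      dsimp only
      split
      · rename_i hx
        exact haθ x hx
      · exact hθ) haT hδw one_pos (fun e _ => le_rfl) f h
  -- the other pairs
  have hw'0 : ∀ x y, 0 ≤ w' x y := by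
    intro x y
    rw [hw']
    dsimp only
    split
    · exact le_rfl
    · have := ha x
      have := ha y
      positivity
  have hmin : ∀ x y, a x * a y / (2 * S) ≤ a x := by
    intro x y
    rcases eq_or_lt_of_le hS0 with h0 | h0
    · rw [← h0]
      simp only [mul_zero, div_zero]
      exact ha x
    · rw [div_le_iff₀ (by positivity)]
      have h2 : a y ≤ S := Finset.single_le_sum (f := a) (fun z _ => ha z) (Finset.mem_univ y)
      have := mul_le_mul_of_nonneg_left h2 (ha x)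
      have := mul_nonneg (ha x) hS0
      linarith
  have hmin' : ∀ x y, a x * a y / (2 * S) ≤ a y := by
    intro x y
    rw [mul_comm (a x)]
    exact hmin y x
  have hfar : ∀ x y, ¬ B x → B y → a x ≤ W * Real.exp (-(c / 3 * (sd x b + sd y b))) := by
    intro x y hx hy
    refine (hout x hx).trans (mul_le_mul_of_nonneg_left (Real.exp_le_exp.2 ?_) hW)
    have h2 : (sd y b : ℝ) ≤ 2 * sd x b := by exact_mod_cast hgeo x y hx hy
    nlinarith
  have hboth : ∀ x y, ¬ B x → ¬ B y → a x * a y / (2 * S) ≤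
      W * Real.exp (-(c / 3 * (sd x b + sd y b))) := by
    intro x y hx hy
    have key : ∀ u v : ℝ, 0 ≤ u → 0 ≤ v → u ≤ v → Real.exp (-(c * v)) ≤
        Real.exp (-(c / 3 * (u + v))) := by
      intro u v hu hv huv
      apply Real.exp_le_exp.2
      nlinarith
    rcases le_total (sd x b : ℝ) (sd y b) with h2 | h2
    · refine (hmin' x y).trans ((hout y hy).trans (mul_le_mul_of_nonneg_left ?_ hW))
      exact key _ _ (Nat.cast_nonneg _) (Nat.cast_nonneg _) h2
    · refine (hmin x y).trans ((hout x hx).trans (mul_le_mul_of_nonneg_left ?_ hW))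
      have := key _ _ (Nat.cast_nonneg _) (Nat.cast_nonneg _) h2
      rwa [add_comm] at this
  have hw'W : ∀ x y, w' x y ≤ W * Real.exp (-(c / 3 * (sd x b + sd y b))) := by
    intro x y
    by_cases hxy : B x ∧ B y
    · have e3 : w' x y = 0 := if_pos hxy
      rw [e3]
      positivity
    · have e3 : w' x y = a x * a y / (2 * S) := if_neg hxy
      rw [e3]
      by_cases hx : B x
      · have hy : ¬ B y := fun hy => hxy ⟨hx, hy⟩
        have := hfar y x hy hx
        rw [add_comm] at this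
        exact (hmin' x y).trans this
      · by_cases hy : B y
        · exact (hmin x y).trans (hfar x y hx hy)
        · exact hboth x y hx hy
  have hw'A : ∀ x y, ¬ (x ∈ A ∧ y ∈ A) → w' x y = 0 := by
    intro x y hxy
    rw [hw']
    dsimp only
    split
    · rfl
    · by_cases hx : x ∈ A
      · rw [haA y (fun hy => hxy ⟨hx, hy⟩)]
        simp
      · rw [haA x hx]
        simp
  have h2 := tlt (by omega : 0 < d) b A w' hW (by positivity : 0 < c / 3) (by linarith) hw'0 hw'A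
    hw'W f h
  refine hsplit.trans ((add_le_add h1 h2).trans (le_of_eq ?_))
  rw [mor_cut_le, ← mor_add]
  congr 1
  · funext x
    by_cases hx : x ∈ A
    · simp only [if_pos hx]
    · simp [if_neg hx]
  · funext e
    split <;> ring

/-- (CTT) THE CUT on the torus, in normal form. The flux `κ x ∑_(b ∈ Q) κ b K_xb` is at most `δ w x` and
at most `θ` in the cube, its total mass there is at most `T`, and it decays outside of the cube. -/
theorem cut_tor (hcut : CutStmt) (hd : 3 ≤ d) {k : ℕ} (J : ℕ) (hM : 2 ^ k ≤ M) (a₀ b : Tor d M)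
    {G : Matrix (Tor d M) (Tor d M) ℂ} {κ : Tor d M → ℝ} {A Q : Finset (Tor d M)} (hQA : Q ⊆ A)
    (hs : ∀ x y, G x y = G y x) (hκ : ∀ x ∈ A, 0 ≤ κ x)
    {w εl εu : Tor d M → ℝ} {bl bu : Bd d M → ℝ} {θ T δ W c : ℝ}
    (h : Fm sT tT A w εl εu bl bu (cE G κ A))
    (hw : ∀ x ∈ A, 0 < w x) (h0 : ∀ x ∈ A, 0 ≤ εl x) (h1 : ∀ x ∈ A, εl x ≤ 1 / 4)
    (hθ : 0 ≤ θ) (hδ : 0 ≤ δ) (hW : 0 ≤ W) (hc : 0 < c) (hc1 : c ≤ 1)
    (hin : ∀ x ∈ A \ Q, Box a₀ (2 ^ k) x → κ x * fl G κ Q x ≤ θ ∧ κ x * fl G κ Q x ≤ δ * w x)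
    (hT : ∑ x ∈ A \ Q, (if Box a₀ (2 ^ k) x then κ x * fl G κ Q x else 0) ≤ T)
    (hout : ∀ x ∈ A \ Q, ¬ Box a₀ (2 ^ k) x →
      κ x * fl G κ Q x ≤ W * Real.exp (-(c * sd x b)))
    (hgeo : ∀ x y, ¬ Box a₀ (2 ^ k) x → Box a₀ (2 ^ k) y → sd y b ≤ 2 * sd x b)
    (hv : ∀ x ∈ A, (if Box a₀ (2 ^ k) x then 2 * δ else 0) +
      CT d (c / 3) * W * Real.exp (-(c / 3 / (4 * d) * sd x b)) / w x ≤ 1 / 16) :
    Fm sT tT (A \ Q) w
      (fun x => εl x + 4 * ((if Box a₀ (2 ^ k) x then 2 * δ else 0) +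
        CT d (c / 3) * W * Real.exp (-(c / 3 / (4 * d) * sd x b)) / w x)) εu
      (fun e => bl e - ((if Box a₀ (2 ^ k) (sT e) ∧ Box a₀ (2 ^ k) (tT e) then
        2 * fac d J θ T else 0) + CT d (c / 3) * W * Real.exp (-(c / 3 / (4 * d) * sd (sT e) b))))
      bu (cE G κ (A \ Q)) := by
  have hCT : 0 ≤ CT d (c / 3) := by
    unfold CT
    positivity
  have hcw : ∀ x, x ∉ A \ Q → cw G κ A Q x = 0 := fun x hx => if_neg hx
  have hcw' : ∀ x, x ∈ A \ Q → cw G κ A Q x = κ x * fl G κ Q x := fun x hx => if_pos hx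
  have hcab := cab hd J hM a₀ b (A \ Q) (a := cw G κ A Q) (w := w) (θ := θ) (T := T) (δ := δ)
    (W := W) (c := c) (cw_nonneg G κ A Q hQA hκ) hcw
    (fun x hx => by
      by_cases hxA : x ∈ A \ Q
      · rw [hcw' x hxA]
        exact (hin x hxA hx).1
      · rw [hcw x hxA]
        exact hθ)
    (by
      refine le_trans (le_of_eq ?_) hT
      rw [← Finset.sum_subset (Finset.subset_univ (A \ Q))]
      · refine Finset.sum_congr rfl fun x hx => ?_
        rw [hcw' x hx]
      · intro x _ hx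
        rw [hcw x hx]
        simp)
    hθ hδ (fun x hx => (hw x (Finset.mem_sdiff.1 hx).1).le)
    (fun x hx hb => by
      rw [hcw' x hx]
      exact (hin x hx hb).2) hW hc hc1
    (fun x hx => by
      by_cases hxA : x ∈ A \ Q
      · rw [hcw' x hxA]
        exact hout x hxA hx
      · rw [hcw x hxA]
        positivity) hgeo
  refine fm_cut hcut hQA hs hκ (v := fun x => (if Box a₀ (2 ^ k) x then 2 * δ else 0) +
        CT d (c / 3) * W * Real.exp (-(c / 3 / (4 * d) * sd x b)) / w x) h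
    (fun x hx => (hw x hx).le) h0 h1 (fun x hx => ?_) hv fun f g => (hcab f g).trans (le_of_eq ?_)
  · have := hw x hx
    have : 0 ≤ (if Box a₀ (2 ^ k) x then 2 * δ else 0) := by split <;> positivity
    positivity
  · congr 1
    funext x
    by_cases hx : x ∈ A \ Q
    · rw [if_pos hx, if_pos hx]
      have hwx := hw x (Finset.mem_sdiff.1 hx).1
      rw [add_mul, div_mul_cancel₀ _ hwx.ne']
      by_cases hb : Box a₀ (2 ^ k) x
      · rw [if_pos hb, if_pos hb]
      · rw [if_neg hb, if_neg hb, zero_mul]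
    · rw [if_neg hx, if_neg hx]

/-- (RLT) THE RELEASE on the torus, in normal form: `m` bounds the change of the rows, `κ m` is at most
`θ`, at most `δ w`, its mass is at most `T`. -/
theorem rel_tor (hfrx : FrxStmt) (hd : 3 ≤ d) {k : ℕ} (J : ℕ) {R : ℕ} (hR : 0 < R)
    (hM : 2 ^ k ≤ M) (a₀ b : Tor d M)
    {G G' : Matrix (Tor d M) (Tor d M) ℂ} {κ m : Tor d M → ℝ} {A B : Finset (Tor d M)} {ε : ℝ}
    (hs : ∀ x y, G x y = G y x) (hs' : ∀ x y, G' x y = G' y x)
    (hκ : ∀ x ∈ A, 0 ≤ κ x) (hBA : B ⊆ A) (hB : ∀ x ∈ B, Core a₀ (2 ^ k) R x)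
    (hε : 0 < ε) (hε1 : ε ≤ 1)
    (hm : ∀ x ∈ B, ∑ y ∈ B, κ y * ‖G x y - G' x y‖ ^ 2 ≤ m x)
    {w εl εu : Tor d M → ℝ} {bl bu : Bd d M → ℝ} {θ T δ W c b₀ b₁ cu u : ℝ}
    (h : Fm sT tT A w εl εu bl bu (cE G κ A))
    (hw : ∀ x ∈ A, 0 < w x) (h0 : ∀ x ∈ A, 0 ≤ εl x) (h1 : ∀ x ∈ A, εl x ≤ 1 / 4)
    (h0u : ∀ x ∈ A, 0 ≤ εu x) (h1u : ∀ x ∈ A, εu x < 1)
    (hcu : ∀ x ∈ A, Box a₀ (2 ^ k) x → 1 ≤ cu * (1 - εu x)) (hcu0 : 0 ≤ cu)
    (hb₀ : 0 < b₀) (hb : ∀ e, Box a₀ (2 ^ k) (sT e) ∧ Box a₀ (2 ^ k) (tT e) →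
      b₀ ≤ bu e ∧ bu e ≤ b₁) (hb₁ : 0 ≤ b₁)
    (hm0 : ∀ x ∈ B, 0 ≤ m x) (hθ : 0 ≤ θ) (hδ : 0 ≤ δ)
    (hin : ∀ x ∈ B, κ x * m x ≤ θ ∧ κ x * m x ≤ δ * w x) (hT : ∑ x ∈ B, κ x * m x ≤ T)
    (hW : 0 ≤ W) (hc : 0 < c) (hc1 : c ≤ 1)
    (hout : ∀ x ∈ A, ∀ y ∈ A, ¬ (x ∈ B ∧ y ∈ B) →
      κ x * κ y * (‖G x y‖ * ‖G x y - G' x y‖ + ‖G x y - G' x y‖ ^ 2) ≤
        W * Real.exp (-(c * (sd x b + sd y b))))
    (hu1 : ε * ((2 + 2 * (d : ℝ) ^ 2 * (((2 ^ k : ℕ) : ℝ) / R) ^ 2 * (b₁ / b₀)) * cu) +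
      8 / ε * δ ≤ u)
    (hu2 : ε * ((2 + 2 * (d : ℝ) ^ 2 * (((2 ^ k : ℕ) : ℝ) / R) ^ 2 * (b₁ / b₀)) * b₁) +
      8 / ε * fac d J θ T ≤ u * b₁)
    (hv : ∀ x ∈ A, (if Box a₀ (2 ^ k) x then u else 0) +
      CT d c * W * Real.exp (-(c / (4 * d) * sd x b)) / w x ≤ 1 / 16)
    (hvu : ∀ x ∈ A, εu x + 4 * ((if Box a₀ (2 ^ k) x then u else 0) +
      CT d c * W * Real.exp (-(c / (4 * d) * sd x b)) / w x) < 1) :
    Fm sT tT A w
      (fun x => εl x + 4 * ((if Box a₀ (2 ^ k) x then u else 0) +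
        CT d c * W * Real.exp (-(c / (4 * d) * sd x b)) / w x))
      (fun x => εu x + 4 * ((if Box a₀ (2 ^ k) x then u else 0) +
        CT d c * W * Real.exp (-(c / (4 * d) * sd x b)) / w x))
      (fun e => bl e - ((if Box a₀ (2 ^ k) (sT e) ∧ Box a₀ (2 ^ k) (tT e) then u * b₁ else 0) +
        CT d c * W * Real.exp (-(c / (4 * d) * sd (sT e) b))))
      (fun e => bu e + ((if Box a₀ (2 ^ k) (sT e) ∧ Box a₀ (2 ^ k) (tT e) then u * b₁ else 0) +
        CT d c * W * Real.exp (-(c / (4 * d) * sd (sT e) b)))) (cE G' κ A) := by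
  set K : ℝ := 2 + 2 * (d : ℝ) ^ 2 * (((2 ^ k : ℕ) : ℝ) / R) ^ 2 * (b₁ / b₀) with hK
  have hK0 : 0 ≤ K := by positivity
  have hCT : 0 ≤ CT d c := by
    unfold CT
    positivity
  have hT0 : 0 ≤ T := (Finset.sum_nonneg fun x hx => mul_nonneg (hκ x (hBA hx)) (hm0 x hx)).trans
    hT
  have hfac := fac_nonneg d J hθ hT0
  -- the local form
  have hBbox : ∀ x, Core a₀ (2 ^ k) R x → Box a₀ (2 ^ k) x := fun x hx i => by
    have := hx i
    omega
  have hwu : ∀ x, 0 ≤ wu A w εu x := fun x => by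
    unfold wu
    split
    · rename_i hx
      have := hw x hx
      have := h1u x hx
      have : 0 < 1 - εu x := by linarith
      positivity
    · exact le_rfl
  have hloc : ∀ f g : Tor d M → ℝ, cE G κ B f ≤
      mor sT tT (fun x => if x ∈ A then (if Box a₀ (2 ^ k) x then K * cu else 0) * w x else 0)
        (fun e => if Box a₀ (2 ^ k) (sT e) ∧ Box a₀ (2 ^ k) (tT e) then K * b₁ else 0) f g := by
    intro f g
    have h2 := loc_form a₀ (R := R) (L := 2 ^ k) (by positivity) hM hR hBA hκ hB hb₀ hb₁ hwu hb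
      h.ub f g
    refine h2.trans ?_
    rw [← hK, mor_cut_le, ← mor_smul]
    refine mor_mono sT tT (fun x => ?_) (fun e => ?_) f g
    · by_cases hx : Box a₀ (2 ^ k) x
      · rw [if_pos hx, if_pos hx]
        unfold wu
        by_cases hxA : x ∈ A
        · rw [if_pos hxA, if_pos hxA]
          have i1 := hw x hxA
          have i2 : 0 < 1 - εu x := by linarith [h1u x hxA]
          have i3 := hcu x hxA hx
          have i4 : w x / (1 - εu x) ≤ cu * w x := by
            rw [div_le_iff₀ i2]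
            nlinarith
          calc K * (w x / (1 - εu x)) ≤ K * (cu * w x) := mul_le_mul_of_nonneg_left i4 hK0
            _ = K * cu * w x := by ring
        · rw [if_neg hxA, if_neg hxA, mul_zero]
      · rw [if_neg hx, if_neg hx, mul_zero, zero_mul]
        split <;> exact le_rfl
    · by_cases he : Box a₀ (2 ^ k) (sT e) ∧ Box a₀ (2 ^ k) (tT e)
      · rw [if_pos he, if_pos he]
        exact mul_le_mul_of_nonneg_left (hb e he).2 hK0
      · rw [if_neg he, if_neg he, mul_zero]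
  -- the absorber
  set a : Tor d M → ℝ := fun x => if x ∈ B then κ x * m x else 0 with ha
  have ha0 : ∀ x, 0 ≤ a x := fun x => by
    rw [ha]
    dsimp only
    split
    · rename_i hx
      exact mul_nonneg (hκ x (hBA hx)) (hm0 x hx)
    · exact le_rfl
  have hab : ∀ f g : Tor d M → ℝ, ∑ x, a x * (f x - wm a f) ^ 2 ≤
      mor sT tT (fun x => if x ∈ A then (if Box a₀ (2 ^ k) x then 2 * δ else 0) * w x else 0)
        (fun e => if Box a₀ (2 ^ k) (sT e) ∧ Box a₀ (2 ^ k) (tT e) then 2 * fac d J θ T else 0)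
        f g := by
    intro f g
    have h2 := bxa hd J hM a₀ (a := a) (al := fun x => if x ∈ A then w x else 0)
      (be := fun _ => 1) (θ := θ) (T := T) (δ := δ) (b₀ := 1) ha0
      (fun x hx => if_neg fun hxB => hx (hBbox x (hB x hxB)))
      (fun x => by
        rw [ha]
        dsimp only
        split
        · rename_i hx
          exact (hin x hx).1
        · exact hθ)
      (by
        rw [ha, ← Finset.sum_subset (Finset.subset_univ B)]
        · refine le_trans (le_of_eq (Finset.sum_congr rfl fun x hx => ?_)) hT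
          rw [if_pos hx]
        · intro x _ hx
          rw [if_neg hx])
      (fun x => by
        rw [ha]
        dsimp only
        by_cases hx : x ∈ B
        · rw [if_pos hx, if_pos (hBA hx)]
          exact (hin x hx).2
        · rw [if_neg hx]
          split
          · rename_i hxA
            exact mul_nonneg hδ (hw x hxA).le
          · simp)
      one_pos (fun e _ => le_rfl) f g
    refine h2.trans (le_of_eq ?_)
    rw [mor_cut_le]
    congr 1
    · funext x
      by_cases hx : Box a₀ (2 ^ k) x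
      · rw [if_pos hx, if_pos hx]
        split <;> ring
      · rw [if_neg hx, if_neg hx]
        simp
    · funext e
      split <;> ring
  -- the tail
  have htl : ∀ f g : Tor d M → ℝ, tl G G' κ A B f ≤
      mor sT tT (fun x => if x ∈ A then
          CT d c * W * Real.exp (-(c / (4 * d) * sd x b)) / w x * w x else 0)
        (fun e => CT d c * W * Real.exp (-(c / (4 * d) * sd (sT e) b))) f g := by
    intro f g
    set w' : Tor d M → Tor d M → ℝ := fun x y => if x ∈ A ∧ y ∈ A then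
      (if x ∈ B ∧ y ∈ B then 0 else
        κ x * κ y * (‖G x y‖ * ‖G x y - G' x y‖ + ‖G x y - G' x y‖ ^ 2)) else 0 with hw'
    have e1 : tl G G' κ A B f = ∑ x, ∑ y, w' x y * (f x - f y) ^ 2 := by
      unfold tl
      rw [← Finset.sum_subset (Finset.subset_univ A)]
      · refine Finset.sum_congr rfl fun x hx => ?_
        rw [← Finset.sum_subset (Finset.subset_univ A)]
        · refine Finset.sum_congr rfl fun y hy => ?_
          have ew : w' x y = if x ∈ B ∧ y ∈ B then 0 else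
            κ x * κ y * (‖G x y‖ * ‖G x y - G' x y‖ + ‖G x y - G' x y‖ ^ 2) := if_pos ⟨hx, hy⟩
          rw [ew]
          by_cases hxy : x ∈ B ∧ y ∈ B
          · rw [if_pos hxy, if_pos hxy, zero_mul]
          · rw [if_neg hxy, if_neg hxy]
        · intro y _ hy
          have ew : w' x y = 0 := if_neg (fun h => hy h.2)
          rw [ew, zero_mul]
      · intro x _ hx
        refine Finset.sum_eq_zero fun y _ => ?_
        have ew : w' x y = 0 := if_neg (fun h => hx h.1)
        rw [ew, zero_mul]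
    rw [e1]
    refine (tlt (by omega : 0 < d) b A w' hW hc hc1 (fun x y => ?_) (fun x y hxy => if_neg hxy)
      (fun x y => ?_) f g).trans (le_of_eq ?_)
    · rw [hw']
      dsimp only
      split
      · rename_i hxy
        split
        · exact le_rfl
        · have := hκ x hxy.1
          have := hκ y hxy.2
          positivity
      · exact le_rfl
    · rw [hw']
      dsimp only
      split
      · rename_i hxy
        split
        · positivity
        · rename_i hxB
          exact hout x hxy.1 y hxy.2 hxB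
      · positivity
    · congr 1
      funext x
      by_cases hx : x ∈ A
      · rw [if_pos hx, if_pos hx, div_mul_cancel₀ _ (hw x hx).ne']
      · rw [if_neg hx, if_neg hx]
  -- sum up
  have hle1 : ∀ x ∈ A, ε * (if Box a₀ (2 ^ k) x then K * cu else 0) +
      4 / ε * (if Box a₀ (2 ^ k) x then 2 * δ else 0) +
      CT d c * W * Real.exp (-(c / (4 * d) * sd x b)) / w x ≤
      (if Box a₀ (2 ^ k) x then u else 0) +
        CT d c * W * Real.exp (-(c / (4 * d) * sd x b)) / w x := by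
    intro x _
    split
    · have : 4 / ε * (2 * δ) = 8 / ε * δ := by ring
      linarith
    · simp
  have hle2 : ∀ e : Bd d M, ε * (if Box a₀ (2 ^ k) (sT e) ∧ Box a₀ (2 ^ k) (tT e) then
        K * b₁ else 0) + 4 / ε * (if Box a₀ (2 ^ k) (sT e) ∧ Box a₀ (2 ^ k) (tT e) then
        2 * fac d J θ T else 0) + CT d c * W * Real.exp (-(c / (4 * d) * sd (sT e) b)) ≤
      (if Box a₀ (2 ^ k) (sT e) ∧ Box a₀ (2 ^ k) (tT e) then u * b₁ else 0) +
        CT d c * W * Real.exp (-(c / (4 * d) * sd (sT e) b)) := by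
    intro e
    split
    · have : 4 / ε * (2 * fac d J θ T) = 8 / ε * fac d J θ T := by ring
      linarith
    · simp
  have hnn : ∀ x ∈ A, 0 ≤ ε * (if Box a₀ (2 ^ k) x then K * cu else 0) +
      4 / ε * (if Box a₀ (2 ^ k) x then 2 * δ else 0) +
      CT d c * W * Real.exp (-(c / (4 * d) * sd x b)) / w x := by
    intro x hx
    have := hw x hx
    have i1 : 0 ≤ (if Box a₀ (2 ^ k) x then K * cu else 0) := by split <;> positivity
    have i2 : 0 ≤ (if Box a₀ (2 ^ k) x then 2 * δ else 0) := by split <;> positivity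
    positivity
  have hmain := fm_rel hfrx m hs hs' hκ hBA hε hε1 hm
    (v₁ := fun x => if Box a₀ (2 ^ k) x then K * cu else 0)
    (v₂ := fun x => if Box a₀ (2 ^ k) x then 2 * δ else 0)
    (v₃ := fun x => CT d c * W * Real.exp (-(c / (4 * d) * sd x b)) / w x)
    (d₁ := fun e => if Box a₀ (2 ^ k) (sT e) ∧ Box a₀ (2 ^ k) (tT e) then K * b₁ else 0)
    (d₂ := fun e => if Box a₀ (2 ^ k) (sT e) ∧ Box a₀ (2 ^ k) (tT e) then
      2 * fac d J θ T else 0)
    (d₃ := fun e => CT d c * W * Real.exp (-(c / (4 * d) * sd (sT e) b))) h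
    (fun x hx => (hw x hx).le) h0 h1 h0u
    (fun x hx => by linarith [hle1 x hx, hvu x hx]) hnn
    (fun x hx => (hle1 x hx).trans (hv x hx)) hloc hab htl
  refine hmain.mono (fun x hx => (hw x hx).le) (fun x hx => ?_) (fun x hx => ?_)
    (fun x hx => ?_) (fun x hx => ?_) (fun e => ?_) (fun e => ?_)
  · have := hnn x hx
    have := h0 x hx
    linarith
  · linarith [hle1 x hx]
  · linarith [hle1 x hx]
  · exact hvu x hx
  · linarith [hle2 e]
  · linarith [hle2 e]

end torus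

end Pool.Agent.CTC
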