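import Pool.Agent.Helper34_CTC.Fm

/-!
# Release of a long cluster: one ball per site

The change of the form is split into the balls `B j`; pairs which are not in a common ball are tails.
-/

set_option autoImplicit false
set_option linter.unusedSectionVars false

open scoped BigOperators
open Finset

noncomputable section

namespace Pool.Agent.CTC

open Pool.Agent.LTG Pool.Agent.ANR Pool.Agent.ANP.H61

section graph

variable {X : Type} [Fintype X] [DecidableEq X] {ι : Type} [DecidableEq ι]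

open Classical in
/-- the part of the change of the form which comes from pairs in no common `B j` -/
def tlJ (G G' : Matrix X X ℂ) (κ : X → ℝ) (A : Finset X) (I : Finset ι) (B : ι → Finset X)
    (f : X → ℝ) : ℝ :=
  ∑ x ∈ A, ∑ y ∈ A, if ∃ j ∈ I, x ∈ B j ∧ y ∈ B j then 0 else
    κ x * κ y * (‖G x y‖ * ‖G x y - G' x y‖ + ‖G x y - G' x y‖ ^ 2) * (f x - f y) ^ 2

theorem pw1 {a g g' δ w : ℝ} (ha : 0 ≤ a) (hw : 0 ≤ w) (hg : 0 ≤ g) (hg' : 0 ≤ g') (hd : 0 ≤ δ)
    (h : |g' - g| ≤ δ) :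
    1 / 2 * |a * g' ^ 2 * w - a * g ^ 2 * w| ≤ a * (g * δ + δ ^ 2) * w := by
  have h1 : |g' ^ 2 - g ^ 2| ≤ 2 * g * δ + δ ^ 2 := by
    have h2 : g' ^ 2 - g ^ 2 = (g' - g) * (g' + g) := by ring
    have h3 : g' ≤ g + δ := by linarith [(abs_le.1 h).2]
    have h4 : |g' + g| = g' + g := abs_of_nonneg (by linarith)
    rw [h2, abs_mul, h4]
    calc |g' - g| * (g' + g) ≤ δ * (g + δ + g) :=
          mul_le_mul h (by linarith) (by linarith) hd
      _ = _ := by ring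
  have h5 : a * g' ^ 2 * w - a * g ^ 2 * w = a * w * (g' ^ 2 - g ^ 2) := by ring
  rw [h5, abs_mul, abs_of_nonneg (mul_nonneg ha hw)]
  have h6 := mul_le_mul_of_nonneg_left h1 (mul_nonneg ha hw)
  have h7 : 0 ≤ a * w * δ ^ 2 := by positivity
  nlinarith

theorem young1 {g δ ε : ℝ} (hε : 0 < ε) (hε1 : ε ≤ 1) :
    1 / 2 * (2 * g * δ + δ ^ 2) ≤ ε / 2 * g ^ 2 + 1 / ε * δ ^ 2 := by
  obtain ⟨t, ht⟩ : ∃ t : ℝ, t = 1 / ε := ⟨_, rfl⟩
  have hte : t * ε = 1 := by rw [ht]; field_simp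
  have ht1 : 1 ≤ t := by
    rw [ht, le_div_iff₀ hε]
    linarith
  rw [← ht]
  have h1 : 0 ≤ t * (ε * g - δ) ^ 2 := mul_nonneg (by linarith) (sq_nonneg _)
  have h2 : t * (ε * g - δ) ^ 2 = ε * g ^ 2 - 2 * g * δ + t * δ ^ 2 := by
    linear_combination (ε * g ^ 2 - 2 * g * δ) * hte
  have h3 : δ ^ 2 ≤ t * δ ^ 2 := by nlinarith [sq_nonneg δ]
  rw [h2] at h1
  linarith

theorem pw2 {a g g' δ w ε : ℝ} (ha : 0 ≤ a) (hw : 0 ≤ w) (hg : 0 ≤ g) (hg' : 0 ≤ g')
    (hd : 0 ≤ δ) (h : |g' - g| ≤ δ) (hε : 0 < ε) (hε1 : ε ≤ 1) :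
    1 / 2 * |a * g' ^ 2 * w - a * g ^ 2 * w| ≤
      ε / 2 * (a * g ^ 2 * w) + 1 / ε * (a * δ ^ 2 * w) := by
  have h1 : |g' ^ 2 - g ^ 2| ≤ 2 * g * δ + δ ^ 2 := by
    have h2 : g' ^ 2 - g ^ 2 = (g' - g) * (g' + g) := by ring
    have h3 : g' ≤ g + δ := by linarith [(abs_le.1 h).2]
    have h4 : |g' + g| = g' + g := abs_of_nonneg (by linarith)
    rw [h2, abs_mul, h4]
    calc |g' - g| * (g' + g) ≤ δ * (g + δ + g) :=
          mul_le_mul h (by linarith) (by linarith) hd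
      _ = _ := by ring
  have h5 : a * g' ^ 2 * w - a * g ^ 2 * w = a * w * (g' ^ 2 - g ^ 2) := by ring
  rw [h5, abs_mul, abs_of_nonneg (mul_nonneg ha hw)]
  have h6 := mul_le_mul_of_nonneg_left h1 (mul_nonneg ha hw)
  have h7 := mul_le_mul_of_nonneg_left (young1 (g := g) (δ := δ) hε hε1) (mul_nonneg ha hw)
  have e : a * w * (ε / 2 * g ^ 2 + 1 / ε * δ ^ 2) =
      ε / 2 * (a * g ^ 2 * w) + 1 / ε * (a * δ ^ 2 * w) := by ring
  rw [← e]
  refine le_trans ?_ h7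
  have e2 : a * w * (1 / 2 * (2 * g * δ + δ ^ 2)) = 1 / 2 * (a * w * (2 * g * δ + δ ^ 2)) := by
    ring
  rw [e2]
  exact mul_le_mul_of_nonneg_left h6 (by norm_num)

/-- the absorber bound of one ball -/
theorem ball_abs {G G' : Matrix X X ℂ} {κ : X → ℝ} {B : Finset X} (hs : ∀ x y, G x y = G y x)
    (hs' : ∀ x y, G' x y = G' y x) (hκ : ∀ x ∈ B, 0 ≤ κ x) {ε : ℝ} (hε : 0 < ε) (m : X → ℝ)
    (hm : ∀ x ∈ B, ∑ y ∈ B, κ y * ‖G x y - G' x y‖ ^ 2 ≤ m x) (f : X → ℝ) (c : ℝ) :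
    ∑ x ∈ B, ∑ y ∈ B, 1 / ε * (κ x * κ y * ‖G x y - G' x y‖ ^ 2 * (f x - f y) ^ 2) ≤
      4 / ε * ∑ x ∈ B, κ x * m x * (f x - c) ^ 2 := by
  have h1 : ∀ x ∈ B, ∀ y ∈ B, 1 / ε * (κ x * κ y * ‖G x y - G' x y‖ ^ 2 * (f x - f y) ^ 2) ≤
      2 / ε * (κ x * (κ y * ‖G x y - G' x y‖ ^ 2) * (f x - c) ^ 2) +
      2 / ε * (κ y * (κ x * ‖G y x - G' y x‖ ^ 2) * (f y - c) ^ 2) := by
    intro x hx y hy
    have e : ‖G y x - G' y x‖ = ‖G x y - G' x y‖ := by rw [hs y x, hs' y x]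
    rw [e]
    have h2 : (f x - f y) ^ 2 ≤ 2 * (f x - c) ^ 2 + 2 * (f y - c) ^ 2 := by
      nlinarith [sq_nonneg ((f x - c) + (f y - c))]
    have h3 : 0 ≤ κ x * κ y * ‖G x y - G' x y‖ ^ 2 :=
      mul_nonneg (mul_nonneg (hκ x hx) (hκ y hy)) (sq_nonneg _)
    have h4 := mul_le_mul_of_nonneg_left h2 h3
    have h5 : 0 ≤ 1 / ε := by positivity
    have h6 := mul_le_mul_of_nonneg_left h4 h5
    refine h6.trans (le_of_eq ?_)
    ring
  refine (Finset.sum_le_sum fun x hx => Finset.sum_le_sum fun y hy => h1 x hx y hy).trans ?_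
  have e1 : ∑ x ∈ B, ∑ y ∈ B,
      (2 / ε * (κ x * (κ y * ‖G x y - G' x y‖ ^ 2) * (f x - c) ^ 2) +
      2 / ε * (κ y * (κ x * ‖G y x - G' y x‖ ^ 2) * (f y - c) ^ 2)) =
      4 / ε * ∑ x ∈ B, κ x * (∑ y ∈ B, κ y * ‖G x y - G' x y‖ ^ 2) * (f x - c) ^ 2 := by
    simp only [Finset.sum_add_distrib]
    rw [Finset.sum_comm (s := B) (t := B)
      (f := fun x y => 2 / ε * (κ y * (κ x * ‖G y x - G' y x‖ ^ 2) * (f y - c) ^ 2))]
    rw [← Finset.sum_add_distrib, Finset.mul_sum]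
    refine Finset.sum_congr rfl fun x _ => ?_
    rw [← Finset.sum_add_distrib, Finset.mul_sum, Finset.sum_mul, Finset.mul_sum]
    refine Finset.sum_congr rfl fun y _ => ?_
    ring
  rw [e1]
  refine mul_le_mul_of_nonneg_left (Finset.sum_le_sum fun x hx => ?_) (by positivity)
  exact mul_le_mul_of_nonneg_right (mul_le_mul_of_nonneg_left (hm x hx) (hκ x hx)) (sq_nonneg _)

open Classical in
/-- (FRJ) the change of the form, split into balls -/
theorem frxJ {G G' : Matrix X X ℂ} {κ : X → ℝ} {A : Finset X} (I : Finset ι)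
    (B : ι → Finset X) (hs : ∀ x y, G x y = G y x)
    (hs' : ∀ x y, G' x y = G' y x) (hκ : ∀ x ∈ A, 0 ≤ κ x) (hBA : ∀ j ∈ I, B j ⊆ A) {ε : ℝ}
    (hε : 0 < ε) (hε1 : ε ≤ 1) (m : X → ℝ)
    (hm : ∀ j ∈ I, ∀ x ∈ B j, ∑ y ∈ B j, κ y * ‖G x y - G' x y‖ ^ 2 ≤ m x) (f : X → ℝ)
    (c : ι → ℝ) :
    |cE G' κ A f - cE G κ A f| ≤ ∑ j ∈ I, (ε * cE G κ (B j) f +
      4 / ε * ∑ x ∈ B j, κ x * m x * (f x - c j) ^ 2) + tlJ G G' κ A I B f := by
  set T1 : X → X → ℝ := fun x y => κ x * κ y * ‖G x y‖ ^ 2 * (f x - f y) ^ 2 with hT1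
  set T2 : X → X → ℝ := fun x y => κ x * κ y * ‖G x y - G' x y‖ ^ 2 * (f x - f y) ^ 2 with hT2
  set T3 : X → X → ℝ := fun x y =>
    κ x * κ y * (‖G x y‖ * ‖G x y - G' x y‖ + ‖G x y - G' x y‖ ^ 2) * (f x - f y) ^ 2 with hT3
  have h1 : |cE G' κ A f - cE G κ A f| ≤ ∑ x ∈ A, ∑ y ∈ A,
      1 / 2 * |κ x * κ y * ‖G' x y‖ ^ 2 * (f x - f y) ^ 2 -
        κ x * κ y * ‖G x y‖ ^ 2 * (f x - f y) ^ 2| := by
    unfold cE
    rw [← mul_sub, ← Finset.sum_sub_distrib, abs_mul, abs_of_pos (by norm_num : (0:ℝ) < 1 / 2)]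
    have e2 : ∑ x ∈ A, ∑ y ∈ A, 1 / 2 * |κ x * κ y * ‖G' x y‖ ^ 2 * (f x - f y) ^ 2 -
        κ x * κ y * ‖G x y‖ ^ 2 * (f x - f y) ^ 2| = 1 / 2 * ∑ x ∈ A, ∑ y ∈ A,
        |κ x * κ y * ‖G' x y‖ ^ 2 * (f x - f y) ^ 2 -
        κ x * κ y * ‖G x y‖ ^ 2 * (f x - f y) ^ 2| := by
      rw [Finset.mul_sum]
      exact Finset.sum_congr rfl fun x _ => by rw [Finset.mul_sum]
    rw [e2]
    refine mul_le_mul_of_nonneg_left ?_ (by norm_num)
    refine (Finset.abs_sum_le_sum_abs _ _).trans (Finset.sum_le_sum fun x _ => ?_)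
    rw [← Finset.sum_sub_distrib]
    exact Finset.abs_sum_le_sum_abs _ _
  refine h1.trans ?_
  have hp : ∀ x ∈ A, ∀ y ∈ A, 1 / 2 * |κ x * κ y * ‖G' x y‖ ^ 2 * (f x - f y) ^ 2 -
        κ x * κ y * ‖G x y‖ ^ 2 * (f x - f y) ^ 2| ≤
      ∑ j ∈ I, (if x ∈ B j ∧ y ∈ B j then ε / 2 * T1 x y + 1 / ε * T2 x y else 0) +
      (if ∃ j ∈ I, x ∈ B j ∧ y ∈ B j then 0 else T3 x y) := by
    intro x hx y hy
    have ha : 0 ≤ κ x * κ y := mul_nonneg (hκ x hx) (hκ y hy)
    have hw : 0 ≤ (f x - f y) ^ 2 := sq_nonneg _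
    have h3 : |‖G' x y‖ - ‖G x y‖| ≤ ‖G x y - G' x y‖ := by
      rw [abs_sub_comm]
      exact abs_norm_sub_norm_le _ _
    have hnn : ∀ j ∈ I, 0 ≤ (if x ∈ B j ∧ y ∈ B j then ε / 2 * T1 x y + 1 / ε * T2 x y else 0) := by
      intro j _
      split
      · rw [hT1, hT2]
        positivity
      · exact le_rfl
    by_cases hex : ∃ j ∈ I, x ∈ B j ∧ y ∈ B j
    · obtain ⟨j, hj, hxy⟩ := hex
      rw [if_pos ⟨j, hj, hxy⟩, add_zero]
      refine le_trans ?_ (Finset.single_le_sum hnn hj)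
      rw [if_pos hxy]
      exact pw2 ha hw (norm_nonneg _) (norm_nonneg _) (norm_nonneg _) h3 hε hε1
    · rw [if_neg hex]
      have h4 := pw1 ha hw (norm_nonneg (G x y)) (norm_nonneg (G' x y)) (norm_nonneg _) h3
      have h5 := Finset.sum_nonneg hnn
      linarith
  refine (Finset.sum_le_sum fun x hx => Finset.sum_le_sum fun y hy => hp x hx y hy).trans ?_
  simp only [Finset.sum_add_distrib]
  unfold tlJ
  refine add_le_add ?_ le_rfl
  have e1 : ∑ x ∈ A, ∑ y ∈ A, ∑ j ∈ I,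
      (if x ∈ B j ∧ y ∈ B j then ε / 2 * T1 x y + 1 / ε * T2 x y else 0) =
      ∑ j ∈ I, ∑ x ∈ A, ∑ y ∈ A,
        (if x ∈ B j ∧ y ∈ B j then ε / 2 * T1 x y + 1 / ε * T2 x y else 0) := by
    rw [Finset.sum_comm (s := I)]
    refine Finset.sum_congr rfl fun x _ => ?_
    rw [Finset.sum_comm]
  rw [e1, ← Finset.sum_add_distrib]
  refine Finset.sum_le_sum fun j hj => ?_
  have e2 : ∑ x ∈ A, ∑ y ∈ A,
        (if x ∈ B j ∧ y ∈ B j then ε / 2 * T1 x y + 1 / ε * T2 x y else 0) =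
      ∑ x ∈ B j, ∑ y ∈ B j, (ε / 2 * T1 x y + 1 / ε * T2 x y) := by
    symm
    rw [← Finset.sum_subset (hBA j hj)]
    · refine Finset.sum_congr rfl fun x hx => ?_
      rw [← Finset.sum_subset (hBA j hj)]
      · refine Finset.sum_congr rfl fun y hy => ?_
        rw [if_pos ⟨hx, hy⟩]
      · intro y _ hy
        rw [if_neg fun h => hy h.2]
    · intro x _ hx
      exact Finset.sum_eq_zero fun y _ => if_neg fun h => hx h.1
  rw [e2]
  simp only [Finset.sum_add_distrib]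
  refine add_le_add (le_of_eq ?_) ?_
  · unfold cE
    rw [Finset.mul_sum, Finset.mul_sum]
    refine Finset.sum_congr rfl fun x _ => ?_
    rw [Finset.mul_sum, Finset.mul_sum]
    refine Finset.sum_congr rfl fun y _ => ?_
    rw [hT1]
    ring
  · exact ball_abs hs hs' (fun x hx => hκ x (hBA j hj hx)) hε m (hm j hj) f (c j)

end graph


section torus

variable {d M : ℕ} [NeZero M]

theorem mor_sumJ {ι : Type} (I : Finset ι) (al : ι → Tor d M → ℝ) (be : ι → Bd d M → ℝ)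
    (f h : Tor d M → ℝ) :
    ∑ j ∈ I, mor sT tT (al j) (be j) f h =
      mor sT tT (fun x => ∑ j ∈ I, al j x) (fun e => ∑ j ∈ I, be j e) f h := by
  have h1 := mor_sum sT tT I (fun _ => (1 : ℝ)) al be f h
  simp only [one_mul] at h1
  exact h1.symm

/-- (TLJ) tails with several centres -/
theorem tltJ (hd : 0 < d) (S : Finset (Tor d M)) (hS : S.Nonempty) (A : Finset (Tor d M))
    (w : Tor d M → Tor d M → ℝ)
    {W c : ℝ} (hW : 0 ≤ W) (hc : 0 < c) (hc1 : c ≤ 1) (hw : ∀ x y, 0 ≤ w x y)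
    (hwA : ∀ x y, ¬ (x ∈ A ∧ y ∈ A) → w x y = 0)
    (hwW : ∀ x y, w x y ≤ W * ∑ q ∈ S, Real.exp (-(c * (sd x q + sd y q))))
    (f h : Tor d M → ℝ) :
    ∑ x, ∑ y, w x y * (f x - f y) ^ 2 ≤
      mor sT tT (fun x => if x ∈ A then
          CT d c * W * ∑ q ∈ S, Real.exp (-(c / (4 * d) * sd x q)) else 0)
        (fun e => CT d c * W * ∑ q ∈ S, Real.exp (-(c / (4 * d) * sd (sT e) q))) f h := by
  set E : Tor d M → Tor d M → Tor d M → ℝ := fun q x y => Real.exp (-(c * (sd x q + sd y q)))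
    with hE
  set Sg : Tor d M → Tor d M → ℝ := fun x y => ∑ q ∈ S, E q x y with hSg
  have hEpos : ∀ q x y, 0 < E q x y := fun q x y => Real.exp_pos _
  have hSgp : ∀ x y, 0 < Sg x y := fun x y => Finset.sum_pos (fun q _ => hEpos q x y) hS
  have h1 : ∀ q ∈ S, ∑ x, ∑ y, (w x y * (E q x y / Sg x y)) * (f x - f y) ^ 2 ≤
      mor sT tT (fun x => if x ∈ A then CT d c * W * Real.exp (-(c / (4 * d) * sd x q)) else 0)
        (fun e => CT d c * W * Real.exp (-(c / (4 * d) * sd (sT e) q))) f h := by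
    intro q _
    refine tlt hd q A (fun x y => w x y * (E q x y / Sg x y)) hW hc hc1 (fun x y => ?_)
      (fun x y hxy => ?_) (fun x y => ?_) f h
    · exact mul_nonneg (hw x y) (div_nonneg (hEpos q x y).le (hSgp x y).le)
    · rw [hwA x y hxy, zero_mul]
    · have h2 := mul_le_mul_of_nonneg_right (hwW x y)
        (div_nonneg (hEpos q x y).le (hSgp x y).le)
      refine h2.trans (le_of_eq ?_)
      have h3 : (∑ q ∈ S, Real.exp (-(c * (sd x q + sd y q)))) = Sg x y := rfl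
      rw [h3, mul_assoc, mul_div_cancel₀ _ (hSgp x y).ne']
  have h2 : ∑ x, ∑ y, w x y * (f x - f y) ^ 2 =
      ∑ q ∈ S, ∑ x, ∑ y, (w x y * (E q x y / Sg x y)) * (f x - f y) ^ 2 := by
    rw [Finset.sum_comm (s := S)]
    refine Finset.sum_congr rfl fun x _ => ?_
    rw [Finset.sum_comm (s := S)]
    refine Finset.sum_congr rfl fun y _ => ?_
    rw [← Finset.sum_mul, ← Finset.mul_sum, ← Finset.sum_div, div_self (hSgp x y).ne', mul_one]
  rw [h2]
  refine (Finset.sum_le_sum h1).trans (le_of_eq ?_)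
  rw [mor_sumJ]
  congr 1
  · funext x
    by_cases hx : x ∈ A
    · simp only [if_pos hx, Finset.mul_sum]
    · simp only [if_neg hx, Finset.sum_const_zero]
  · funext e
    rw [Finset.mul_sum]

/-- the number of the boxes which contain `x` -/
def nb {ι : Type} (I : Finset ι) (a₀ : ι → Tor d M) (L : ℕ) (x : Tor d M) : ℝ :=
  ∑ j ∈ I, if Box (a₀ j) L x then 1 else 0

/-- the number of the boxes which contain the bond `e` -/
def nbE {ι : Type} (I : Finset ι) (a₀ : ι → Tor d M) (L : ℕ) (e : Bd d M) : ℝ :=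
  ∑ j ∈ I, if Box (a₀ j) L (sT e) ∧ Box (a₀ j) L (tT e) then 1 else 0

theorem nb_nonneg {ι : Type} (I : Finset ι) (a₀ : ι → Tor d M) (L : ℕ) (x : Tor d M) :
    0 ≤ nb I a₀ L x := Finset.sum_nonneg fun j _ => by split <;> norm_num

theorem nbE_nonneg {ι : Type} (I : Finset ι) (a₀ : ι → Tor d M) (L : ℕ) (e : Bd d M) :
    0 ≤ nbE I a₀ L e := Finset.sum_nonneg fun j _ => by split <;> norm_num

theorem nb_le_card {ι : Type} (I : Finset ι) (a₀ : ι → Tor d M) (L : ℕ) (x : Tor d M) :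
    nb I a₀ L x ≤ I.card := by
  unfold nb
  refine (Finset.sum_le_sum (g := fun _ => (1 : ℝ)) fun j _ => ?_).trans (le_of_eq (by simp))
  split <;> norm_num

open Classical in
/-- (RLJ) THE RELEASE OF A LONG CLUSTER on the torus: balls `B j` inside cubes, `S` = the changed
sites -/
theorem rel_torJ (hd : 3 ≤ d) {ι : Type} (I : Finset ι) {k : ℕ} (J : ℕ) {R : ℕ} (hR : 0 < R)
    (hM : 2 ^ k ≤ M) (a₀ : ι → Tor d M) (S : Finset (Tor d M)) (hSne : S.Nonempty)
    {G G' : Matrix (Tor d M) (Tor d M) ℂ} {κ m : Tor d M → ℝ} {A : Finset (Tor d M)}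
    {B : ι → Finset (Tor d M)} {ε : ℝ}
    (hs : ∀ x y, G x y = G y x) (hs' : ∀ x y, G' x y = G' y x)
    (hκ : ∀ x ∈ A, 0 ≤ κ x) (hBA : ∀ j ∈ I, B j ⊆ A)
    (hB : ∀ j ∈ I, ∀ x ∈ B j, Core (a₀ j) (2 ^ k) R x)
    (hε : 0 < ε) (hε1 : ε ≤ 1)
    (hm : ∀ j ∈ I, ∀ x ∈ B j, ∑ y ∈ B j, κ y * ‖G x y - G' x y‖ ^ 2 ≤ m x)
    {w εl εu : Tor d M → ℝ} {bl bu : Bd d M → ℝ} {θ T δ W c b₀ b₁ cu u : ℝ}
    (h : Fm sT tT A w εl εu bl bu (cE G κ A))
    (hw : ∀ x ∈ A, 0 < w x) (h0 : ∀ x ∈ A, 0 ≤ εl x) (h1 : ∀ x ∈ A, εl x ≤ 1 / 4)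
    (h0u : ∀ x ∈ A, 0 ≤ εu x) (h1u : ∀ x ∈ A, εu x < 1)
    (hcu : ∀ x ∈ A, 1 ≤ cu * (1 - εu x)) (hcu0 : 0 ≤ cu)
    (hb₀ : 0 < b₀) (hb : ∀ j ∈ I, ∀ e, Box (a₀ j) (2 ^ k) (sT e) ∧ Box (a₀ j) (2 ^ k) (tT e) →
      b₀ ≤ bu e ∧ bu e ≤ b₁) (hb₁ : 0 ≤ b₁)
    (hm0 : ∀ j ∈ I, ∀ x ∈ B j, 0 ≤ m x) (hθ : 0 ≤ θ) (hδ : 0 ≤ δ)
    (hin : ∀ j ∈ I, ∀ x ∈ B j, κ x * m x ≤ θ ∧ κ x * m x ≤ δ * w x)
    (hT : ∀ j ∈ I, ∑ x ∈ B j, κ x * m x ≤ T)
    (hW : 0 ≤ W) (hc : 0 < c) (hc1 : c ≤ 1)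
    (hout : ∀ x ∈ A, ∀ y ∈ A, ¬ (∃ j ∈ I, x ∈ B j ∧ y ∈ B j) →
      κ x * κ y * (‖G x y‖ * ‖G x y - G' x y‖ + ‖G x y - G' x y‖ ^ 2) ≤
        W * ∑ q ∈ S, Real.exp (-(c * (sd x q + sd y q))))
    (hu0 : 0 ≤ u)
    (hu1 : ε * ((2 + 2 * (d : ℝ) ^ 2 * (((2 ^ k : ℕ) : ℝ) / R) ^ 2 * (b₁ / b₀)) * cu) +
      8 / ε * δ ≤ u)
    (hu2 : ε * ((2 + 2 * (d : ℝ) ^ 2 * (((2 ^ k : ℕ) : ℝ) / R) ^ 2 * (b₁ / b₀)) * b₁) +
      8 / ε * fac d J θ T ≤ u * b₁)
    (hv : ∀ x ∈ A, u * nb I a₀ (2 ^ k) x +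
      CT d c * W * (∑ q ∈ S, Real.exp (-(c / (4 * d) * sd x q))) / w x ≤ 1 / 16)
    (hvu : ∀ x ∈ A, εu x + 4 * (u * nb I a₀ (2 ^ k) x +
      CT d c * W * (∑ q ∈ S, Real.exp (-(c / (4 * d) * sd x q))) / w x) < 1) :
    Fm sT tT A w
      (fun x => εl x + 4 * (u * nb I a₀ (2 ^ k) x +
        CT d c * W * (∑ q ∈ S, Real.exp (-(c / (4 * d) * sd x q))) / w x))
      (fun x => εu x + 4 * (u * nb I a₀ (2 ^ k) x +
        CT d c * W * (∑ q ∈ S, Real.exp (-(c / (4 * d) * sd x q))) / w x))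
      (fun e => bl e - (u * b₁ * nbE I a₀ (2 ^ k) e +
        CT d c * W * ∑ q ∈ S, Real.exp (-(c / (4 * d) * sd (sT e) q))))
      (fun e => bu e + (u * b₁ * nbE I a₀ (2 ^ k) e +
        CT d c * W * ∑ q ∈ S, Real.exp (-(c / (4 * d) * sd (sT e) q)))) (cE G' κ A) := by
  set K : ℝ := 2 + 2 * (d : ℝ) ^ 2 * (((2 ^ k : ℕ) : ℝ) / R) ^ 2 * (b₁ / b₀) with hK
  have hK0 : 0 ≤ K := by positivity
  have hCT : 0 ≤ CT d c := by
    unfold CT
    positivity
  have hBbox : ∀ a x : Tor d M, Core a (2 ^ k) R x → Box a (2 ^ k) x := fun a x hx i => by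
    have := hx i
    omega
  have hwu : ∀ x, 0 ≤ wu A w εu x := fun x => by
    unfold wu
    split
    · rename_i hx
      have := hw x hx
      have := h1u x hx
      have : 0 < 1 - εu x := by linarith
      positivity
    · exact le_rfl
  -- the local forms
  have hloc : ∀ j ∈ I, ∀ f g : Tor d M → ℝ, cE G κ (B j) f ≤
      mor sT tT (fun x => if x ∈ A then (if Box (a₀ j) (2 ^ k) x then K * cu else 0) * w x else 0)
        (fun e => if Box (a₀ j) (2 ^ k) (sT e) ∧ Box (a₀ j) (2 ^ k) (tT e) then K * b₁ else 0)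
        f g := by
    intro j hj f g
    have h2 := loc_form (a₀ j) (R := R) (L := 2 ^ k) (by positivity) hM hR (hBA j hj) hκ (hB j hj)
      hb₀ hb₁ hwu (hb j hj) h.ub f g
    refine h2.trans ?_
    rw [← hK, mor_cut_le, ← mor_smul]
    refine mor_mono sT tT (fun x => ?_) (fun e => ?_) f g
    · by_cases hx : Box (a₀ j) (2 ^ k) x
      · rw [if_pos hx, if_pos hx]
        unfold wu
        by_cases hxA : x ∈ A
        · rw [if_pos hxA, if_pos hxA]
          have i1 := hw x hxA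
          have i2 : 0 < 1 - εu x := by linarith [h1u x hxA]
          have i3 := hcu x hxA
          have i4 : w x / (1 - εu x) ≤ cu * w x := by
            rw [div_le_iff₀ i2]
            nlinarith
          calc K * (w x / (1 - εu x)) ≤ K * (cu * w x) := mul_le_mul_of_nonneg_left i4 hK0
            _ = K * cu * w x := by ring
        · rw [if_neg hxA, if_neg hxA, mul_zero]
      · rw [if_neg hx, if_neg hx, mul_zero, zero_mul]
        split <;> exact le_rfl
    · by_cases he : Box (a₀ j) (2 ^ k) (sT e) ∧ Box (a₀ j) (2 ^ k) (tT e)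
      · rw [if_pos he, if_pos he]
        exact mul_le_mul_of_nonneg_left (hb j hj e he).2 hK0
      · rw [if_neg he, if_neg he, mul_zero]
  -- the absorbers
  set a : ι → Tor d M → ℝ := fun j x => if x ∈ B j then κ x * m x else 0 with ha
  have ha0 : ∀ j ∈ I, ∀ x, 0 ≤ a j x := fun j hj x => by
    rw [ha]
    dsimp only
    split
    · rename_i hx
      exact mul_nonneg (hκ x (hBA j hj hx)) (hm0 j hj x hx)
    · exact le_rfl
  have hab : ∀ j ∈ I, ∀ f g : Tor d M → ℝ, ∑ x, a j x * (f x - wm (a j) f) ^ 2 ≤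
      mor sT tT (fun x => if x ∈ A then (if Box (a₀ j) (2 ^ k) x then 2 * δ else 0) * w x else 0)
        (fun e => if Box (a₀ j) (2 ^ k) (sT e) ∧ Box (a₀ j) (2 ^ k) (tT e) then
          2 * fac d J θ T else 0) f g := by
    intro j hj f g
    have h2 := bxa hd J hM (a₀ j) (a := a j) (al := fun x => if x ∈ A then w x else 0)
      (be := fun _ => 1) (θ := θ) (T := T) (δ := δ) (b₀ := 1) (ha0 j hj)
      (fun x hx => if_neg fun hxB => hx (hBbox _ x (hB j hj x hxB)))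
      (fun x => by
        rw [ha]
        dsimp only
        split
        · rename_i hx
          exact (hin j hj x hx).1
        · exact hθ)
      (by
        rw [ha, ← Finset.sum_subset (Finset.subset_univ (B j))]
        · refine le_trans (le_of_eq (Finset.sum_congr rfl fun x hx => ?_)) (hT j hj)
          exact if_pos hx
        · intro x _ hx
          exact if_neg hx)
      (fun x => by
        rw [ha]
        dsimp only
        by_cases hx : x ∈ B j
        · rw [if_pos hx, if_pos (hBA j hj hx)]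
          exact (hin j hj x hx).2
        · rw [if_neg hx]
          split
          · rename_i hxA
            exact mul_nonneg hδ (hw x hxA).le
          · simp)
      one_pos (fun e _ => le_rfl) f g
    refine h2.trans (le_of_eq ?_)
    rw [mor_cut_le]
    congr 1
    · funext x
      by_cases hx : Box (a₀ j) (2 ^ k) x
      · rw [if_pos hx, if_pos hx]
        split <;> ring
      · rw [if_neg hx, if_neg hx]
        simp
    · funext e
      split <;> ring
  -- the tail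
  have htl : ∀ f g : Tor d M → ℝ, tlJ G G' κ A I B f ≤
      mor sT tT (fun x => if x ∈ A then
          CT d c * W * (∑ q ∈ S, Real.exp (-(c / (4 * d) * sd x q))) / w x * w x else 0)
        (fun e => CT d c * W * ∑ q ∈ S, Real.exp (-(c / (4 * d) * sd (sT e) q))) f g := by
    intro f g
    set w' : Tor d M → Tor d M → ℝ := fun x y => if x ∈ A ∧ y ∈ A then
      (if ∃ j ∈ I, x ∈ B j ∧ y ∈ B j then 0 else
        κ x * κ y * (‖G x y‖ * ‖G x y - G' x y‖ + ‖G x y - G' x y‖ ^ 2)) else 0 with hw'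
    have e1 : tlJ G G' κ A I B f = ∑ x, ∑ y, w' x y * (f x - f y) ^ 2 := by
      unfold tlJ
      rw [← Finset.sum_subset (Finset.subset_univ A)]
      · refine Finset.sum_congr rfl fun x hx => ?_
        rw [← Finset.sum_subset (Finset.subset_univ A)]
        · refine Finset.sum_congr rfl fun y hy => ?_
          have ew : w' x y = if ∃ j ∈ I, x ∈ B j ∧ y ∈ B j then 0 else
            κ x * κ y * (‖G x y‖ * ‖G x y - G' x y‖ + ‖G x y - G' x y‖ ^ 2) := if_pos ⟨hx, hy⟩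
          rw [ew]
          by_cases hxy : ∃ j ∈ I, x ∈ B j ∧ y ∈ B j
          · rw [if_pos hxy, if_pos hxy, zero_mul]
          · rw [if_neg hxy, if_neg hxy]
        · intro y _ hy
          have ew : w' x y = 0 := if_neg (fun h => hy h.2)
          rw [ew, zero_mul]
      · intro x _ hx
        refine Finset.sum_eq_zero fun y _ => ?_
        have ew : w' x y = 0 := if_neg (fun h => hx h.1)
        rw [ew, zero_mul]
    rw [e1]
    refine (tltJ (by omega : 0 < d) S hSne A w' hW hc hc1 (fun x y => ?_)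
      (fun x y hxy => if_neg hxy) (fun x y => ?_) f g).trans (le_of_eq ?_)
    · rw [hw']
      dsimp only
      split
      · rename_i hxy
        split
        · exact le_rfl
        · have := hκ x hxy.1
          have := hκ y hxy.2
          positivity
      · exact le_rfl
    · rw [hw']
      dsimp only
      split
      · rename_i hxy
        split
        · positivity
        · rename_i hxB
          exact hout x hxy.1 y hxy.2 hxB
      · positivity
    · congr 1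
      funext x
      by_cases hx : x ∈ A
      · rw [if_pos hx, if_pos hx, div_mul_cancel₀ _ (hw x hx).ne']
      · rw [if_neg hx, if_neg hx]
  -- the error
  set v : Tor d M → ℝ := fun x => u * nb I a₀ (2 ^ k) x +
      CT d c * W * (∑ q ∈ S, Real.exp (-(c / (4 * d) * sd x q))) / w x with hvdef
  set dl : Bd d M → ℝ := fun e => u * b₁ * nbE I a₀ (2 ^ k) e +
        CT d c * W * ∑ q ∈ S, Real.exp (-(c / (4 * d) * sd (sT e) q)) with hdl
  have herr : ∀ f g : Tor d M → ℝ, |cE G' κ A f - cE G κ A f| ≤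
      mor sT tT (fun x => if x ∈ A then v x * w x else 0) dl f g := by
    intro f g
    have i1 := frxJ I B hs hs' hκ hBA hε hε1 m hm f (fun j => wm (a j) f)
    refine i1.trans ?_
    have i2 : ∀ j ∈ I, ε * cE G κ (B j) f +
        4 / ε * ∑ x ∈ B j, κ x * m x * (f x - wm (a j) f) ^ 2 ≤
        mor sT tT (fun x => if x ∈ A then (if Box (a₀ j) (2 ^ k) x then u else 0) * w x else 0)
          (fun e => if Box (a₀ j) (2 ^ k) (sT e) ∧ Box (a₀ j) (2 ^ k) (tT e) then u * b₁ else 0)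
          f g := by
      intro j hj
      have e2 : ∑ x ∈ B j, κ x * m x * (f x - wm (a j) f) ^ 2 =
          ∑ x, a j x * (f x - wm (a j) f) ^ 2 := by
        rw [← Finset.sum_subset (Finset.subset_univ (B j))]
        · refine Finset.sum_congr rfl fun x hx => ?_
          have : a j x = κ x * m x := if_pos hx
          rw [this]
        · intro x _ hx
          have : a j x = 0 := if_neg hx
          rw [this, zero_mul]
      rw [e2]
      have i3 := mul_le_mul_of_nonneg_left (hloc j hj f g) hε.le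
      have i4 := mul_le_mul_of_nonneg_left (hab j hj f g) (by positivity : 0 ≤ 4 / ε)
      refine (add_le_add i3 i4).trans ?_
      rw [← mor_smul, ← mor_smul, ← mor_add]
      refine mor_mono sT tT (fun x => ?_) (fun e => ?_) f g
      · by_cases hx : x ∈ A
        · simp only [if_pos hx]
          by_cases hb : Box (a₀ j) (2 ^ k) x
          · simp only [if_pos hb]
            have i5 := hw x hx
            have : 4 / ε * (2 * δ) = 8 / ε * δ := by ring
            nlinarith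
          · simp [if_neg hb]
        · simp [if_neg hx]
      · by_cases hb : Box (a₀ j) (2 ^ k) (sT e) ∧ Box (a₀ j) (2 ^ k) (tT e)
        · simp only [if_pos hb]
          have : 4 / ε * (2 * fac d J θ T) = 8 / ε * fac d J θ T := by ring
          linarith
        · simp [if_neg hb]
    refine (add_le_add (Finset.sum_le_sum i2) (htl f g)).trans (le_of_eq ?_)
    rw [mor_sumJ, ← mor_add]
    congr 1
    · funext x
      by_cases hx : x ∈ A
      · simp only [if_pos hx]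
        rw [← Finset.sum_mul, hvdef]
        dsimp only
        rw [add_mul]
        congr 2
        unfold nb
        rw [Finset.mul_sum]
        refine Finset.sum_congr rfl fun j _ => ?_
        split <;> ring
      · simp [if_neg hx]
    · funext e
      rw [hdl]
      dsimp only
      congr 1
      unfold nbE
      rw [Finset.mul_sum]
      refine Finset.sum_congr rfl fun j _ => ?_
      split <;> ring
  have hv0 : ∀ x ∈ A, 0 ≤ v x := by
    intro x hx
    have i1 := hw x hx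
    have i2 := nb_nonneg I a₀ (2 ^ k) x
    have i3 : 0 ≤ ∑ q ∈ S, Real.exp (-(c / (4 * d) * sd x q)) :=
      Finset.sum_nonneg fun q _ => (Real.exp_pos _).le
    rw [hvdef]
    positivity
  exact fm_err (v := v) (dl := dl) h (fun x hx => (hw x hx).le) h0 h1 h0u hvu hv0 hv herr

end torus

end Pool.Agent.CTC
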