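import Pool.Agent.Helper34_CTC.Mul
import Pool.Agent.Helper34_CTC.Comp

/-!
# The cut of several clusters, one after the other
-/

set_option autoImplicit false
set_option linter.unusedSectionVars false

open scoped BigOperators
open Finset

noncomputable section

namespace Pool.Agent.CTC

open Pool.Agent.LTG Pool.Agent.ANR Pool.Agent.ANP.H61

variable {d M : ℕ} [NeZero M]

/-- (CTJ) THE CUT of the sites `⋃ Q j`. All hypotheses are about one `Q j` in the full network. -/
theorem cut_torJ (hcut : CutStmt) (hd : 3 ≤ d) {ι : Type} [DecidableEq ι] (I : Finset ι) {k : ℕ}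
    (J : ℕ) (hM : 2 ^ k ≤ M) (a₀ b : ι → Tor d M)
    {G : Matrix (Tor d M) (Tor d M) ℂ} {κ : Tor d M → ℝ} {A : Finset (Tor d M)}
    {Q : ι → Finset (Tor d M)} (hQA : ∀ j ∈ I, Q j ⊆ A)
    (hdis : ∀ i ∈ I, ∀ j ∈ I, i ≠ j → Disjoint (Q i) (Q j))
    (hs : ∀ x y, G x y = G y x) (hκ : ∀ x ∈ A, 0 ≤ κ x)
    {w εl εu : Tor d M → ℝ} {bl bu : Bd d M → ℝ} {θ T δ W c : ℝ}
    (h : Fm sT tT A w εl εu bl bu (cE G κ A))
    (hw : ∀ x ∈ A, 0 < w x) (h0 : ∀ x ∈ A, 0 ≤ εl x)
    (hθ : 0 ≤ θ) (hδ : 0 ≤ δ) (hW : 0 ≤ W) (hc : 0 < c) (hc1 : c ≤ 1)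
    (hin : ∀ j ∈ I, ∀ x ∈ A \ Q j, Box (a₀ j) (2 ^ k) x →
      κ x * fl G κ (Q j) x ≤ θ ∧ κ x * fl G κ (Q j) x ≤ δ * w x)
    (hT : ∀ j ∈ I, ∑ x ∈ A \ Q j, (if Box (a₀ j) (2 ^ k) x then κ x * fl G κ (Q j) x else 0) ≤ T)
    (hout : ∀ j ∈ I, ∀ x ∈ A \ Q j, ¬ Box (a₀ j) (2 ^ k) x →
      κ x * fl G κ (Q j) x ≤ W * Real.exp (-(c * sd x (b j))))
    (hgeo : ∀ j ∈ I, ∀ x y, ¬ Box (a₀ j) (2 ^ k) x → Box (a₀ j) (2 ^ k) y →
      sd y (b j) ≤ 2 * sd x (b j))
    (hv : ∀ x ∈ A, εl x + 4 * (2 * δ * nb I a₀ (2 ^ k) x +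
      CT d (c / 3) * W * (∑ j ∈ I, Real.exp (-(c / 3 / (4 * d) * sd x (b j)))) / w x) ≤ 1 / 4) :
    Fm sT tT (A \ I.biUnion Q) w
      (fun x => εl x + 4 * (2 * δ * nb I a₀ (2 ^ k) x +
        CT d (c / 3) * W * (∑ j ∈ I, Real.exp (-(c / 3 / (4 * d) * sd x (b j)))) / w x)) εu
      (fun e => bl e - (2 * fac d J θ T * nbE I a₀ (2 ^ k) e +
        CT d (c / 3) * W * ∑ j ∈ I, Real.exp (-(c / 3 / (4 * d) * sd (sT e) (b j)))))
      bu (cE G κ (A \ I.biUnion Q)) := by
  have hCT : 0 ≤ CT d (c / 3) := by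
    unfold CT
    positivity
  -- monotonicity of the errors in `I`
  have hmono : ∀ I' : Finset ι, I' ⊆ I → ∀ x ∈ A,
      2 * δ * nb I' a₀ (2 ^ k) x +
        CT d (c / 3) * W * (∑ j ∈ I', Real.exp (-(c / 3 / (4 * d) * sd x (b j)))) / w x ≤
      2 * δ * nb I a₀ (2 ^ k) x +
        CT d (c / 3) * W * (∑ j ∈ I, Real.exp (-(c / 3 / (4 * d) * sd x (b j)))) / w x := by
    intro I' hI' x hx
    have hwx := hw x hx
    have i1 : nb I' a₀ (2 ^ k) x ≤ nb I a₀ (2 ^ k) x :=
      Finset.sum_le_sum_of_subset_of_nonneg hI' fun j _ _ => by split <;> norm_num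
    have i2 : ∑ j ∈ I', Real.exp (-(c / 3 / (4 * d) * sd x (b j))) ≤
        ∑ j ∈ I, Real.exp (-(c / 3 / (4 * d) * sd x (b j))) :=
      Finset.sum_le_sum_of_subset_of_nonneg hI' fun j _ _ => (Real.exp_pos _).le
    have i3 : 0 ≤ CT d (c / 3) * W := mul_nonneg hCT hW
    refine add_le_add (mul_le_mul_of_nonneg_left i1 (by positivity)) ?_
    exact div_le_div_of_nonneg_right (mul_le_mul_of_nonneg_left i2 i3) hwx.le
  have key : ∀ I' : Finset ι, I' ⊆ I → Fm sT tT (A \ I'.biUnion Q) w
      (fun x => εl x + 4 * (2 * δ * nb I' a₀ (2 ^ k) x +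
        CT d (c / 3) * W * (∑ j ∈ I', Real.exp (-(c / 3 / (4 * d) * sd x (b j)))) / w x)) εu
      (fun e => bl e - (2 * fac d J θ T * nbE I' a₀ (2 ^ k) e +
        CT d (c / 3) * W * ∑ j ∈ I', Real.exp (-(c / 3 / (4 * d) * sd (sT e) (b j)))))
      bu (cE G κ (A \ I'.biUnion Q)) := by
    intro I'
    induction I' using Finset.induction_on with
    | empty =>
      intro _
      have e1 : A \ (∅ : Finset ι).biUnion Q = A := by simp
      rw [e1]
      have e2 : (fun x => εl x + 4 * (2 * δ * nb (∅ : Finset ι) a₀ (2 ^ k) x +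
          CT d (c / 3) * W * (∑ j ∈ (∅ : Finset ι),
            Real.exp (-(c / 3 / (4 * d) * sd x (b j)))) / w x)) = εl := by
        funext x
        simp [nb]
      have e3 : (fun e => bl e - (2 * fac d J θ T * nbE (∅ : Finset ι) a₀ (2 ^ k) e +
          CT d (c / 3) * W * ∑ j ∈ (∅ : Finset ι),
            Real.exp (-(c / 3 / (4 * d) * sd (sT e) (b j))))) = bl := by
        funext e
        simp [nbE]
      rw [e2, e3]
      exact h
    | insert i I' hi ih =>
      intro hI'
      have hiI : i ∈ I := hI' (Finset.mem_insert_self i I')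
      have hI'I : I' ⊆ I := fun j hj => hI' (Finset.mem_insert_of_mem hj)
      have h2 := ih hI'I
      set A' := A \ I'.biUnion Q with hA'
      have hA'A : A' ⊆ A := Finset.sdiff_subset
      have hQA' : Q i ⊆ A' := by
        intro x hx
        rw [hA', Finset.mem_sdiff]
        refine ⟨hQA i hiI hx, fun hc' => ?_⟩
        obtain ⟨j, hj, hxj⟩ := Finset.mem_biUnion.1 hc'
        have hij : i ≠ j := fun h => hi (h ▸ hj)
        exact Finset.disjoint_left.1 (hdis i hiI j (hI'I hj) hij) hx hxj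
      have hsub : A' \ Q i ⊆ A \ Q i := Finset.sdiff_subset_sdiff hA'A (Finset.Subset.refl _)
      have hfl0 : ∀ x ∈ A, 0 ≤ κ x * fl G κ (Q i) x := fun x hx => by
        refine mul_nonneg (hκ x hx) ?_
        unfold fl
        exact Finset.sum_nonneg fun c' hc' => mul_nonneg (hκ c' (hQA i hiI hc')) (sq_nonneg _)
      have hstep : ∀ x ∈ A, (2 * δ * nb I' a₀ (2 ^ k) x +
          CT d (c / 3) * W * (∑ j ∈ I', Real.exp (-(c / 3 / (4 * d) * sd x (b j)))) / w x) +
          ((if Box (a₀ i) (2 ^ k) x then 2 * δ else 0) +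
            CT d (c / 3) * W * Real.exp (-(c / 3 / (4 * d) * sd x (b i))) / w x) =
          2 * δ * nb (insert i I') a₀ (2 ^ k) x +
          CT d (c / 3) * W * (∑ j ∈ insert i I',
            Real.exp (-(c / 3 / (4 * d) * sd x (b j)))) / w x := by
        intro x hx
        unfold nb
        rw [Finset.sum_insert hi, Finset.sum_insert hi]
        have := (hw x hx).ne'
        split <;> ring
      have hnn : ∀ x ∈ A, 0 ≤ 2 * δ * nb I' a₀ (2 ^ k) x +
          CT d (c / 3) * W * (∑ j ∈ I', Real.exp (-(c / 3 / (4 * d) * sd x (b j)))) / w x := by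
        intro x hx
        have := hw x hx
        have := nb_nonneg I' a₀ (2 ^ k) x
        have : 0 ≤ ∑ j ∈ I', Real.exp (-(c / 3 / (4 * d) * sd x (b j))) :=
          Finset.sum_nonneg fun _ _ => (Real.exp_pos _).le
        positivity
      have hnn2 : ∀ x ∈ A, 0 ≤ (if Box (a₀ i) (2 ^ k) x then 2 * δ else 0) +
            CT d (c / 3) * W * Real.exp (-(c / 3 / (4 * d) * sd x (b i))) / w x := by
        intro x hx
        have := hw x hx
        have : 0 ≤ (if Box (a₀ i) (2 ^ k) x then 2 * δ else 0) := by split <;> positivity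
        positivity
      have h3 := cut_tor hcut hd J hM (a₀ i) (b i) hQA' hs (fun x hx => hκ x (hA'A hx)) h2
        (fun x hx => hw x (hA'A hx))
        (fun x hx => by linarith [h0 x (hA'A hx), hnn x (hA'A hx)])
        (fun x hx => by linarith [hmono I' hI'I x (hA'A hx), hv x (hA'A hx)])
        hθ hδ hW hc hc1 (fun x hx => hin i hiI x (hsub hx))
        ((Finset.sum_le_sum_of_subset_of_nonneg hsub fun x hx _ => by
          split
          · exact hfl0 x (Finset.mem_sdiff.1 hx).1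
          · exact le_rfl).trans (hT i hiI))
        (fun x hx => hout i hiI x (hsub hx)) (hgeo i hiI)
        (fun x hx => by
          have hxA := hA'A hx
          have := hstep x hxA
          have := hmono _ hI' x hxA
          have := hv x hxA
          have := h0 x hxA
          have := hnn x hxA
          linarith)
      have e1 : A' \ Q i = A \ (insert i I').biUnion Q := by
        rw [hA']
        ext x
        simp only [Finset.mem_sdiff, Finset.mem_biUnion, Finset.mem_insert, not_exists, not_and]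
        constructor
        · rintro ⟨⟨hxA, h1⟩, h2⟩
          refine ⟨hxA, fun j hj => ?_⟩
          rcases hj with rfl | hj
          · exact h2
          · exact h1 j hj
        · rintro ⟨hxA, h1⟩
          exact ⟨⟨hxA, fun j hj => h1 j (Or.inr hj)⟩, h1 i (Or.inl rfl)⟩
      rw [e1] at h3
      refine ⟨lb_mono sT tT (fun x => ?_) (fun e => ?_) h3.lb, h3.ub⟩
      · unfold wl
        by_cases hx : x ∈ A \ (insert i I').biUnion Q
        · rw [if_pos hx, if_pos hx]
          have hxA := (Finset.mem_sdiff.1 hx).1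
          refine le_of_eq ?_
          have e4 := hstep x hxA
          dsimp only
          rw [← e4]
          ring
        · rw [if_neg hx, if_neg hx]
      · refine le_of_eq ?_
        unfold nbE
        rw [Finset.sum_insert hi, Finset.sum_insert hi]
        split <;> ring
  exact key I (Finset.Subset.refl I)

end Pool.Agent.CTC
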