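import Pool.Agent.Helper22_LTG.Gen
import Pool.Agent.Helper61_ANP.Tor

/-!
# Tails on the torus, uniformly in the size of the torus

A pair form `∑ w_xy (f x - f y)²` with exponentially small weights is bounded by a Moreau expression
with exponentially small weights.
-/

set_option autoImplicit false
set_option linter.unusedSectionVars false

open scoped BigOperators
open Finset

noncomputable section

namespace Pool.Agent.CTC

open Pool.Agent.LTG Pool.Agent.ANP.H61

variable {d M : ℕ} [NeZero M]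

/-- the `ℓ¹` distance of the torus -/
def l1 (x y : Tor d M) : ℕ := ∑ i, cd (x i) (y i)

theorem l1_self (x : Tor d M) : l1 x x = 0 := by
  unfold l1
  simp [cd_self]

theorem l1_comm (x y : Tor d M) : l1 x y = l1 y x := by
  unfold l1
  exact Finset.sum_congr rfl fun i _ => cd_comm _ _

theorem l1_tri (x y z : Tor d M) : l1 x z ≤ l1 x y + l1 y z := by
  unfold l1
  rw [← Finset.sum_add_distrib]
  exact Finset.sum_le_sum fun i _ => cd_tri _ _ _

theorem sd_le_l1 (x y : Tor d M) : sd x y ≤ l1 x y := by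
  rw [sd_le]
  intro i
  unfold l1
  exact Finset.single_le_sum (f := fun i => cd (x i) (y i)) (fun _ _ => Nat.zero_le _)
    (Finset.mem_univ i)

theorem l1_le_sd (x y : Tor d M) : l1 x y ≤ d * sd x y := by
  unfold l1
  refine (Finset.sum_le_sum fun i _ => le_sd x y i).trans (le_of_eq ?_)
  rw [Finset.sum_const, Finset.card_univ, Fintype.card_fin, smul_eq_mul]

theorem cd_zero {a b : ZMod M} (h : cd a b = 0) : a = b := by
  unfold cd at h
  rw [Int.natAbs_eq_zero, ZMod.valMinAbs_eq_zero] at h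
  exact sub_eq_zero.1 h

theorem l1_zero {x y : Tor d M} (h : l1 x y = 0) : x = y := by
  unfold l1 at h
  rw [Finset.sum_eq_zero_iff] at h
  funext i
  exact cd_zero (h i (Finset.mem_univ i))

/-- one step towards `b` -/
theorem cd_step {a b : ZMod M} (h : 0 < cd a b) :
    cd (a + 1) b + 1 = cd a b ∨ cd (a - 1) b + 1 = cd a b := by
  obtain ⟨k, hk, hk2⟩ := exists_int a b
  have hk0 : k ≠ 0 := by
    intro h0
    rw [h0] at hk2
    simp at hk2
    omega
  rcases lt_or_gt_of_ne hk0 with h1 | h1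
  · left
    have e : a + 1 - b = ((k + 1 : ℤ) : ZMod M) := by
      push_cast
      rw [← hk]
      ring
    have h2 := cd_le (a + 1) b (k + 1) e
    have h3 : (k + 1).natAbs + 1 = k.natAbs := by omega
    have h4 := cd_tri a (a + 1) b
    have h5 : cd a (a + 1) ≤ 1 := by
      have := cd_le a (a + 1) (-1) (by push_cast; ring)
      simpa using this
    omega
  · right
    have e : a - 1 - b = ((k - 1 : ℤ) : ZMod M) := by
      push_cast
      rw [← hk]
      ring
    have h2 := cd_le (a - 1) b (k - 1) e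
    have h3 : (k - 1).natAbs + 1 = k.natAbs := by omega
    have h4 := cd_tri a (a - 1) b
    have h5 : cd a (a - 1) ≤ 1 := by
      have := cd_le a (a - 1) 1 (by push_cast; ring)
      simpa using this
    omega

theorem l1_upd (x y : Tor d M) (i : Fin d) (v : ZMod M) :
    l1 (Function.update x i v) y + cd (x i) (y i) = l1 x y + cd v (y i) := by
  unfold l1
  rw [← Finset.add_sum_erase _ _ (Finset.mem_univ i),
    ← Finset.add_sum_erase _ (fun j => cd (x j) (y j)) (Finset.mem_univ i)]
  have : ∑ j ∈ Finset.univ.erase i, cd (Function.update x i v j) (y j) =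
      ∑ j ∈ Finset.univ.erase i, cd (x j) (y j) := by
    refine Finset.sum_congr rfl fun j hj => ?_
    rw [Function.update_of_ne (Finset.ne_of_mem_erase hj)]
  rw [this, Function.update_self]
  ring

/-- the bond `e` is within distance `n` of `x` and of `y` -/
def Nr (n : ℕ) (x y : Tor d M) (e : Bd d M) : Prop :=
  l1 x (sT e) ≤ n ∧ l1 y (sT e) ≤ n

/-- a step along a bond -/
theorem step_bond (x : Tor d M) (i : Fin d) (v : ZMod M) (hv : v = x i + 1 ∨ v = x i - 1) :
    ∃ e : Bd d M, (∀ h : Tor d M → ℝ, |h x - h (Function.update x i v)| = |h (tT e) - h (sT e)|) ∧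
      (sT e = x ∨ sT e = Function.update x i v) := by
  rcases hv with hv | hv
  · refine ⟨(i, x), fun h => ?_, Or.inl rfl⟩
    have e1 : tT (i, x) = Function.update x i v := by
      funext j
      unfold tT
      by_cases hj : j = i
      · subst hj; simp [hv]
      · simp [Function.update_of_ne hj, Pi.single_eq_of_ne hj]
    rw [e1, abs_sub_comm]
    rfl
  · refine ⟨(i, Function.update x i v), fun h => ?_, Or.inr rfl⟩
    have e1 : tT (i, Function.update x i v) = x := by
      funext j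
      unfold tT
      by_cases hj : j = i
      · subst hj; simp [hv]
      · simp [Function.update_of_ne hj, Pi.single_eq_of_ne hj]
    rw [e1]
    rfl

/-- PATHS -/
theorem path (n : ℕ) : ∀ x y : Tor d M, l1 x y = n → ∃ P : List (Bd d M), P.length ≤ n ∧
    (∀ e ∈ P, Nr n x y e) ∧
    ∀ h : Tor d M → ℝ, |h x - h y| ≤ (P.map fun e => |h (tT e) - h (sT e)|).sum := by
  induction n with
  | zero =>
    intro x y hxy
    have := l1_zero hxy
    subst this
    exact ⟨[], le_rfl, by simp, fun h => by simp⟩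
  | succ n ih =>
    intro x y hxy
    have hex : ∃ i, 0 < cd (x i) (y i) := by
      by_contra hc
      push Not at hc
      have : l1 x y = 0 := by
        unfold l1
        exact Finset.sum_eq_zero fun i _ => Nat.le_zero.1 (hc i)
      omega
    obtain ⟨i, hi⟩ := hex
    have hv : ∃ v, (v = x i + 1 ∨ v = x i - 1) ∧ cd v (y i) + 1 = cd (x i) (y i) := by
      rcases cd_step hi with h | h
      · exact ⟨_, Or.inl rfl, h⟩
      · exact ⟨_, Or.inr rfl, h⟩
    obtain ⟨v, hv1, hv2⟩ := hv
    set x' := Function.update x i v with hx'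
    have hup := l1_upd x y i v
    rw [← hx'] at hup
    have hl : l1 x' y = n := by omega
    obtain ⟨P, hP1, hP2, hP3⟩ := ih x' y hl
    obtain ⟨e, he1, he2⟩ := step_bond x i v hv1
    have hcd : cd (x i) v ≤ 1 := by
      rcases hv1 with h | h
      · have := cd_le (x i) v (-1) (by rw [h]; push_cast; ring)
        simpa using this
      · have := cd_le (x i) v 1 (by rw [h]; push_cast; ring)
        simpa using this
    have hxx : l1 x x' ≤ 1 := by
      have h1 := l1_upd x x i v
      rw [← hx', l1_self, cd_self, cd_comm v] at h1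
      rw [l1_comm]
      omega
    refine ⟨e :: P, by simpa using hP1, ?_, fun h => ?_⟩
    · intro e' he'
      rcases List.mem_cons.1 he' with h | h
      · subst h
        rcases he2 with h | h
        · rw [← hx'] at *
          refine ⟨by rw [h, l1_self]; omega, by rw [h, l1_comm]; omega⟩
        · rw [← hx'] at h
          refine ⟨by rw [h]; omega, by rw [h, l1_comm]; omega⟩
      · obtain ⟨h1, h2⟩ := hP2 e' h
        exact ⟨by have := l1_tri x x' (sT e'); omega, by omega⟩
    · rw [List.map_cons, List.sum_cons, ← he1 h, ← hx']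
      have := hP3 h
      have h2 : h x - h y = (h x - h x') + (h x' - h y) := by ring
      rw [h2]
      exact (abs_add_le _ _).trans (by linarith)

theorem list_sum_le (P : List (Bd d M)) (n : ℕ) (hn : P.length ≤ n) (S : Bd d M → Prop)
    [DecidablePred S] (hS : ∀ e ∈ P, S e) (g : Bd d M → ℝ) (hg : ∀ e, 0 ≤ g e) :
    (P.map g).sum ^ 2 ≤ (n : ℝ) ^ 2 * ∑ e, (if S e then g e ^ 2 else 0) := by
  have h0 : ∀ e, 0 ≤ (if S e then g e ^ 2 else 0) := fun e => by
    split
    · exact sq_nonneg _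
    · exact le_rfl
  set m : ℝ := Real.sqrt (∑ e, (if S e then g e ^ 2 else 0)) with hm
  have h1 : ∀ e ∈ P, g e ≤ m := by
    intro e he
    rw [hm]
    refine Real.le_sqrt_of_sq_le ?_
    have := Finset.single_le_sum (fun e _ => h0 e) (Finset.mem_univ e)
    rw [if_pos (hS e he)] at this
    exact this
  have h2 : (P.map g).sum ≤ n * m := by
    have h3 : (P.map g).sum ≤ (P.map fun _ => m).sum := List.sum_le_sum h1
    rw [List.map_const', List.sum_replicate, nsmul_eq_mul] at h3
    refine h3.trans ?_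
    have : (P.length : ℝ) ≤ n := by exact_mod_cast hn
    exact mul_le_mul_of_nonneg_right this (Real.sqrt_nonneg _)
  have h3 : 0 ≤ (P.map g).sum := List.sum_nonneg (by
    intro x hx
    obtain ⟨e, _, rfl⟩ := List.mem_map.1 hx
    exact hg e)
  calc (P.map g).sum ^ 2 ≤ (n * m) ^ 2 := pow_le_pow_left₀ h3 h2 2
    _ = (n : ℝ) ^ 2 * ∑ e, (if S e then g e ^ 2 else 0) := by
      rw [mul_pow, hm, Real.sq_sqrt (Finset.sum_nonneg fun e _ => h0 e)]

/-- the difference of two values by the bonds near the two points -/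
theorem diff_sq (x y : Tor d M) (h : Tor d M → ℝ) :
    (h x - h y) ^ 2 ≤ (l1 x y : ℝ) ^ 2 *
      ∑ e, (if l1 x (sT e) ≤ l1 x y ∧ l1 y (sT e) ≤ l1 x y then (h (tT e) - h (sT e)) ^ 2
        else 0) := by
  obtain ⟨P, hP1, hP2, hP3⟩ := path (l1 x y) x y rfl
  have h1 := list_sum_le P (l1 x y) hP1 (fun e => l1 x (sT e) ≤ l1 x y ∧ l1 y (sT e) ≤ l1 x y)
    hP2 (fun e => |h (tT e) - h (sT e)|) (fun e => abs_nonneg _)
  simp only [sq_abs] at h1
  refine le_trans ?_ h1
  rw [← sq_abs]
  exact pow_le_pow_left₀ (abs_nonneg _) (hP3 h) 2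

/-- (TLP) a pair form with any weights -/
theorem tlp (w : Tor d M → Tor d M → ℝ) (hw : ∀ x y, 0 ≤ w x y) (f h : Tor d M → ℝ) :
    ∑ x, ∑ y, w x y * (f x - f y) ^ 2 ≤
      mor sT tT (fun x => 3 * ∑ y, (w x y + w y x))
        (fun e => 3 * ∑ x, ∑ y, (if l1 x (sT e) ≤ l1 x y ∧ l1 y (sT e) ≤ l1 x y then
          w x y * (l1 x y : ℝ) ^ 2 else 0)) f h := by
  have h1 : ∀ x y, w x y * (f x - f y) ^ 2 ≤ 3 * (w x y * (f x - h x) ^ 2) +
      3 * (w x y * (f y - h y) ^ 2) + 3 * (w x y * (h x - h y) ^ 2) := by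
    intro x y
    have h2 : (f x - f y) ^ 2 ≤ 3 * (f x - h x) ^ 2 + 3 * (f y - h y) ^ 2 +
        3 * (h x - h y) ^ 2 := by
      nlinarith [sq_nonneg ((f x - h x) + (f y - h y)), sq_nonneg ((f x - h x) - (h x - h y)),
        sq_nonneg ((f y - h y) + (h x - h y))]
    have := mul_le_mul_of_nonneg_left h2 (hw x y)
    linarith
  have e1 : ∑ x, ∑ y, w x y * (f x - h x) ^ 2 = ∑ x, (∑ y, w x y) * (f x - h x) ^ 2 :=
    Finset.sum_congr rfl fun x _ => by rw [Finset.sum_mul]
  have e2 : ∑ x, ∑ y, w x y * (f y - h y) ^ 2 = ∑ x, (∑ y, w y x) * (f x - h x) ^ 2 := by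
    rw [Finset.sum_comm]
    exact Finset.sum_congr rfl fun x _ => by rw [Finset.sum_mul]
  have h3 : ∑ x, ∑ y, w x y * (h x - h y) ^ 2 ≤
      ∑ e, (∑ x, ∑ y, (if l1 x (sT e) ≤ l1 x y ∧ l1 y (sT e) ≤ l1 x y then
          w x y * (l1 x y : ℝ) ^ 2 else 0)) * (h (tT e) - h (sT e)) ^ 2 := by
    have e3 : ∑ e : Bd d M, (∑ x, ∑ y, (if l1 x (sT e) ≤ l1 x y ∧ l1 y (sT e) ≤ l1 x y then
          w x y * (l1 x y : ℝ) ^ 2 else 0)) * (h (tT e) - h (sT e)) ^ 2 =
        ∑ x, ∑ y, ∑ e : Bd d M, (if l1 x (sT e) ≤ l1 x y ∧ l1 y (sT e) ≤ l1 x y then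
          w x y * (l1 x y : ℝ) ^ 2 else 0) * (h (tT e) - h (sT e)) ^ 2 := by
      simp only [Finset.sum_mul]
      rw [Finset.sum_comm]
      refine Finset.sum_congr rfl fun x _ => ?_
      rw [Finset.sum_comm]
    rw [e3]
    refine Finset.sum_le_sum fun x _ => Finset.sum_le_sum fun y _ => ?_
    refine (mul_le_mul_of_nonneg_left (diff_sq x y h) (hw x y)).trans (le_of_eq ?_)
    rw [← mul_assoc, Finset.mul_sum]
    refine Finset.sum_congr rfl fun e _ => ?_
    split
    · rfl
    · simp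
  calc ∑ x, ∑ y, w x y * (f x - f y) ^ 2
      ≤ ∑ x, ∑ y, (3 * (w x y * (f x - h x) ^ 2) + 3 * (w x y * (f y - h y) ^ 2) +
        3 * (w x y * (h x - h y) ^ 2)) :=
        Finset.sum_le_sum fun x _ => Finset.sum_le_sum fun y _ => h1 x y
    _ = 3 * ∑ x, ∑ y, w x y * (f x - h x) ^ 2 + 3 * ∑ x, ∑ y, w x y * (f y - h y) ^ 2 +
        3 * ∑ x, ∑ y, w x y * (h x - h y) ^ 2 := by
      simp only [Finset.sum_add_distrib, Finset.mul_sum]
    _ ≤ _ := by
      rw [e1, e2]
      unfold mor bon
      have e5 : ∑ x, 3 * (∑ y, (w x y + w y x)) * (f x - h x) ^ 2 =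
          3 * ∑ x, (∑ y, w x y) * (f x - h x) ^ 2 + 3 * ∑ x, (∑ y, w y x) * (f x - h x) ^ 2 := by
        rw [Finset.mul_sum, Finset.mul_sum, ← Finset.sum_add_distrib]
        refine Finset.sum_congr rfl fun x _ => ?_
        rw [Finset.sum_add_distrib]
        ring
      rw [e5]
      have e6 : ∀ e : Bd d M, 3 * (∑ x, ∑ y, (if l1 x (sT e) ≤ l1 x y ∧ l1 y (sT e) ≤ l1 x y then
          w x y * (l1 x y : ℝ) ^ 2 else 0)) * (h (tT e) - h (sT e)) ^ 2 =
          3 * ((∑ x, ∑ y, (if l1 x (sT e) ≤ l1 x y ∧ l1 y (sT e) ≤ l1 x y then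
          w x y * (l1 x y : ℝ) ^ 2 else 0)) * (h (tT e) - h (sT e)) ^ 2) := fun e => by ring
      simp only [e6, ← Finset.mul_sum]
      linarith

end Pool.Agent.CTC
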